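import Pool.Agent.THF.L.Grp
import Pool.Agent.LD.L.Fld
import Pool.Agent.H73.AL.Final

/-!
# THF/L-Alg: ALG, a multiple of every number field is a combination of `ℚ` and thin fields

PLAN.  `thin_field`: `exists_fld` (LD/L/Fld) for `K = ⟨ℚ⟩`, `φ` = the embedding of `ℚ` (`stb φ = ⊤`, index `1`), `H = J`, `n = J.index`: `F'`, `ψ` with `stb ψ = J`, `mark F' = pc J`, `finrank ℚ F' = J.index` (the algebra structure of the lemma is the canonical one: `Subsingleton (Algebra ℚ F')`/`Rat` algebras are unique).  `Thin`: `tc_of`, and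
`sqrt_mem`, `even_of`.
`alg_rel`: for the lists `A`, `B` of subgroups choose the fields (`List.map` with `Classical.choose`, or induction on the list).  `mark ℚ U = 1` (`mark_one`, H73/AL/Final).  `Rel` unfolds to the sums; `List.sum_replicate`, `List.map_append`.
-/

namespace Pool.Agent.THF

open NumberField IsDedekindDomain Pool.Agent.HWR Pool.Agent.QD Pool.Agent.LD Pool.Agent.H73.AL
  Pool.Agent.H73.DU

private theorem fr_of_mark (F : Type) [Field F] [NumberField F] (H : Subgroup GQ)
    (hmark : mark F = pc H) : Module.finrank ℚ F = H.index := by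
  have h3 := congrFun hmark ⊥
  rw [pc_bot, mark, pch_bot] at h3
  have h4 := NumberField.Embeddings.card F (AlgebraicClosure ℚ)
  rw [← Nat.card_eq_fintype_card] at h4
  rw [h4] at h3
  exact_mod_cast h3

private theorem stb_rat (φ0 : ℚ →+* AlgebraicClosure ℚ) : stb φ0 = ⊤ := by
  rw [eq_top_iff]
  intro g _
  change g • φ0 = φ0
  exact Subsingleton.elim _ _

theorem thin_field {φ : ℕ → ℕ} {T : Finset ℕ} {i : AlgebraicClosure ℚ →+* ℂ} {c : GQ}
    (h : IsCx i c) {J : Subgroup GQ} (hJ : ThinG φ T c J) : ∃ F : NF, mark F.F = pc J ∧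
      Thin φ T F.F := by
  obtain ⟨hop, hc, x, s, hs, hfix, hloc⟩ := hJ
  have hst0 := stb_rat (algebraMap ℚ (AlgebraicClosure ℚ))
  obtain ⟨F, inst, ψ, -, hst, hmark, -⟩ := exists_fld ⟨ℚ⟩ (algebraMap ℚ (AlgebraicClosure ℚ)) J hop
    (by rw [hst0]; exact le_top) (n := J.index) (by
      rw [hst0, Subgroup.index_top, mul_one])
  clear inst
  have hfin : Module.finrank ℚ F.F = J.index := fr_of_mark F.F J hmark
  refine ⟨F, hmark, tc_of h F.F ψ (by rw [hst]; exact hc), ?_⟩
  intro p hp hpT hle w hw
  obtain ⟨θ, hθ⟩ := sqrt_mem ψ hs fun g hg => hfix g (by rw [← hst]; exact hg)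
  exact even_of F.F hθ hp (hloc p hp hpT (by rw [← hfin]; exact hle)) w hw

theorem alg_rel (φ : ℕ → ℕ) {T : Finset ℕ} (hTp : ∀ p ∈ T, p.Prime) (h2 : 2 ∈ T) (K : NF) :
    ∃ (m : ℕ) (A B : List NF), 0 < m ∧ (∀ F ∈ A ++ B, Thin φ T F.F) ∧
      Rel T (List.replicate m K ++ A)
        (List.replicate (m * InfinitePlace.nrRealPlaces K.F) ⟨ℚ⟩ ++ B) := by
  classical
  obtain ⟨i, c, hc, m, A, B, hm, hAB, hid⟩ := grp φ hTp h2 K.F
  let f : Subgroup GQ → NF := fun J =>
    if h : ThinG φ T c J then (thin_field hc h).choose else ⟨ℚ⟩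
  have hf : ∀ J, ThinG φ T c J → mark (f J).F = pc J ∧ Thin φ T (f J).F := by
    intro J hJ
    have h1 : f J = (thin_field hc hJ).choose := dif_pos hJ
    rw [h1]
    exact (thin_field hc hJ).choose_spec
  refine ⟨m, A.map f, B.map f, hm, ?_, ?_⟩
  · intro F hF
    rw [← List.map_append, List.mem_map] at hF
    obtain ⟨J, hJ, rfl⟩ := hF
    exact (hf J (hAB J hJ)).2
  · intro U hU
    have hA : ((A.map f).map fun F => mark F.F U) = A.map fun J => pc J U := by
      rw [List.map_map]
      refine List.map_congr_left fun J hJ => ?_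
      change mark (f J).F U = pc J U
      rw [(hf J (hAB J (List.mem_append.2 (Or.inl hJ)))).1]
    have hB : ((B.map f).map fun F => mark F.F U) = B.map fun J => pc J U := by
      rw [List.map_map]
      refine List.map_congr_left fun J hJ => ?_
      change mark (f J).F U = pc J U
      rw [(hf J (hAB J (List.mem_append.2 (Or.inr hJ)))).1]
    rw [List.map_append, List.map_append, List.sum_append, List.sum_append, hA, hB,
      List.map_replicate, List.map_replicate, List.sum_replicate, List.sum_replicate,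
      mark_one ℚ (Module.finrank_self ℚ), ← hid U hU]
    simp only [nsmul_eq_mul]
    push_cast
    ring

end Pool.Agent.THF
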