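import Pool.Agent.LD.L.Defs
import Pool.Agent.H73.AL.Extract
import Pool.Agent.H73.DU.RatNice

/-!
# THF/L-Defs: thin fields, the family of subgroups
-/

namespace Pool.Agent.THF

open NumberField IsDedekindDomain Pool.Agent.HWR Pool.Agent.LD Pool.Agent.H73.AL
  Pool.Agent.H73.DU

/-- totally complex, and even local degrees at the places over the primes `p ≤ φ [F : ℚ]`, `p ∉ T` -/
def Thin (φ : ℕ → ℕ) (T : Finset ℕ) (F : Type) [Field F] [NumberField F] : Prop :=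
  IsEmpty (F →+* ℝ) ∧ ∀ p : ℕ, p.Prime → p ∉ T → p ≤ φ (Module.finrank ℚ F) →
    ∀ w : HeightOneSpectrum (𝓞 F), ((p : ℕ) : 𝓞 F) ∈ w.asIdeal → 2 ∣ locDeg ℚ w

/-- a complex conjugation of the algebraic closure of `ℚ` -/
def IsCx (i : AlgebraicClosure ℚ →+* ℂ) (c : GQ) : Prop :=
  ∀ x, i (c x) = (starRingEnd ℂ) (i x)

/-- the subgroups `U ⊔ N`, `U ∈ famT T`, which contain no conjugate of `c` -/
def SS0 (T : Finset ℕ) (N : Subgroup GQ) (c : GQ) : Set (Subgroup GQ) :=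
  {H | (∃ U ∈ famT T, H = U ⊔ N) ∧ ∀ g : GQ, g⁻¹ * c * g ∉ H}

end Pool.Agent.THF
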