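import Pool.Agent.QD.N3Main
import Pool.Agent.LD.L.Pl

/-!
# THF/L-AB: rational numbers which are squares at `T` and nonsquares at many primes

Let `Q = 8 * ∏ p ∈ T, p`. An integer `n ≡ 1 mod Q` is a local square at every place which contains a prime of `T`
(`AB_lsq`, by `LSq_of_close`). `d = 1 - Q`; `a ≡ 1 mod Q` is a quadratic nonresidue modulo the primes `p ≤ L` off `T`, and
`b ≡ 1 mod Q`, `b ≡ p mod p²` for these primes (Chinese remainder theorem).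
-/

namespace Pool.Agent.THF

open NumberField IsDedekindDomain Pool.Agent.HWR Pool.Agent.QD

private theorem AB_span {v : HeightOneSpectrum (𝓞 ℚ)} {p : ℕ} (hp : p.Prime)
    (hv : ((p : ℕ) : 𝓞 ℚ) ∈ v.asIdeal) : v.asIdeal = Ideal.span {((p : ℕ) : 𝓞 ℚ)} := by
  refine le_antisymm (fun x hx => ?_) ?_
  · rw [Ideal.mem_span_singleton]
    by_cases h : (p : ℤ) ∣ Rat.ringOfIntegersEquiv x
    · have h1 := map_dvd Rat.ringOfIntegersEquiv.symm h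
      rw [RingEquiv.symm_apply_apply, map_natCast] at h1
      exact h1
    · exfalso
      have hc : IsCoprime (p : ℤ) (Rat.ringOfIntegersEquiv x) :=
        (Int.prime_iff_natAbs_prime.2 (by simpa using hp)).coprime_iff_not_dvd.2 h
      obtain ⟨s, t, hst⟩ := hc
      have h1 := congrArg Rat.ringOfIntegersEquiv.symm hst
      rw [map_add, map_mul, map_mul, RingEquiv.symm_apply_apply, map_natCast, map_one] at h1
      refine v.isPrime.ne_top ((Ideal.eq_top_iff_one _).2 ?_)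
      rw [← h1]
      exact v.asIdeal.add_mem (v.asIdeal.mul_mem_left _ hv) (v.asIdeal.mul_mem_left _ hx)
  · rw [Ideal.span_singleton_le_iff_mem]
    exact hv

private theorem AB_mem {v : HeightOneSpectrum (𝓞 ℚ)} {p : ℕ} (hp : p.Prime)
    (hv : ((p : ℕ) : 𝓞 ℚ) ∈ v.asIdeal) (n : ℤ) (k : ℕ) :
    ((n : ℤ) : 𝓞 ℚ) ∈ v.asIdeal ^ k ↔ (p : ℤ) ^ k ∣ n := by
  rw [AB_span hp hv, Ideal.span_singleton_pow, Ideal.mem_span_singleton]
  constructor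
  · intro h
    have h1 := map_dvd Rat.ringOfIntegersEquiv h
    rw [map_pow, map_natCast, map_intCast] at h1
    simpa using h1
  · rintro ⟨m, rfl⟩
    push_cast
    exact Dvd.intro _ rfl

private theorem AB_mem1 {v : HeightOneSpectrum (𝓞 ℚ)} {p : ℕ} (hp : p.Prime)
    (hv : ((p : ℕ) : 𝓞 ℚ) ∈ v.asIdeal) (n : ℤ) : ((n : ℤ) : 𝓞 ℚ) ∈ v.asIdeal ↔ (p : ℤ) ∣ n := by
  have h := AB_mem hp hv n 1
  rwa [pow_one, pow_one] at h

private theorem AB_val {v : HeightOneSpectrum (𝓞 ℚ)} {p : ℕ} (hp : p.Prime)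
    (hv : ((p : ℕ) : 𝓞 ℚ) ∈ v.asIdeal) (n : ℤ) (k : ℕ) :
    v.valuation ℚ (n : ℚ) ≤ WithZero.exp (-(k : ℤ)) ↔ (p : ℤ) ^ k ∣ n := by
  have h1 : (n : ℚ) = algebraMap (𝓞 ℚ) ℚ ((n : ℤ) : 𝓞 ℚ) := by rw [map_intCast]
  rw [h1, HeightOneSpectrum.valuation_of_algebraMap, HeightOneSpectrum.intValuation_le_pow_iff_mem]
  exact AB_mem hp hv n k

private theorem AB_close {v : HeightOneSpectrum (𝓞 ℚ)} {p : ℕ} (hp : p.Prime)
    (hv : ((p : ℕ) : 𝓞 ℚ) ∈ v.asIdeal) {n : ℤ} {k : ℕ} (h : (p : ℤ) ^ k ∣ n - 1) : closeOne v k (n : ℚ) := by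
  unfold closeOne
  have h1 := (AB_val hp hv (n - 1) k).2 h
  rwa [Int.cast_sub, Int.cast_one] at h1

private theorem AB_ord {v : HeightOneSpectrum (𝓞 ℚ)} {p : ℕ} (hp : p.Prime)
    (hv : ((p : ℕ) : 𝓞 ℚ) ∈ v.asIdeal) {x : ℚˣ} {n : ℤ} (hx : (x : ℚ) = n) (k : ℕ) :
    (k : ℤ) ≤ ordK v x ↔ (p : ℤ) ^ k ∣ n := by
  rw [le_ordK_iff_of_int v x ((n : ℤ) : 𝓞 ℚ) (by rw [hx, map_intCast]) k]
  exact AB_mem hp hv n k

private theorem AB_lsq {T : Finset ℕ} (hTp : ∀ p ∈ T, p.Prime) {v : HeightOneSpectrum (𝓞 ℚ)}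
    (hv : ¬ Away ℚ T v) {x : ℚˣ} {n : ℤ} (hx : (x : ℚ) = n) (hn : ((8 * ∏ p ∈ T, p : ℕ) : ℤ) ∣ n - 1) : LSq v x := by
  unfold Away at hv
  push Not at hv
  obtain ⟨p, hpT, hpv⟩ := hv
  have hp := hTp p hpT
  refine LSq_of_close v x ?_
  rw [hx]
  refine AB_close hp hpv ?_
  by_cases h2 : p = 2
  · subst h2
    have he : e2 v ≤ 1 := by
      have h3 : ((2 : ℤ) : 𝓞 ℚ) ∈ v.asIdeal ^ e2 v := by exact_mod_cast two_mem_pow v
      have h4 : (2 : ℤ) ^ e2 v ∣ 2 := by simpa using (AB_mem hp hpv 2 (e2 v)).1 h3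
      by_contra h5
      push Not at h5
      have h6 : (2 : ℤ) ^ 2 ∣ 2 := (pow_dvd_pow 2 h5).trans h4
      norm_num at h6
    have h7 : (2 : ℤ) ^ (2 * e2 v + 1) ∣ 2 ^ 3 := pow_dvd_pow 2 (by omega)
    refine dvd_trans ?_ hn
    push_cast
    refine h7.trans ?_
    norm_num
  · have h3 : (2 : 𝓞 ℚ) ∉ v.asIdeal := by
      intro h3
      have h4 := (AB_mem1 hp hpv 2).1 (by exact_mod_cast h3)
      have h5 : p ∣ 2 := by exact_mod_cast h4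
      exact h2 ((Nat.prime_dvd_prime_iff_eq hp Nat.prime_two).1 h5)
    rw [e2_eq_zero v h3]
    refine dvd_trans ?_ hn
    have h4 : p ∣ ∏ p ∈ T, p := Finset.dvd_prod_of_mem (fun p => p) hpT
    have h5 : p ∣ 8 * ∏ p ∈ T, p := Dvd.dvd.mul_left h4 8
    simpa using (Int.natCast_dvd_natCast.2 h5)

private theorem AB_Q (T : Finset ℕ) (hTp : ∀ p ∈ T, p.Prime) : 8 ≤ 8 * ∏ p ∈ T, p := by
  have h : 1 ≤ ∏ p ∈ T, p := Finset.prod_pos fun p hp => (hTp p hp).pos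
  linarith

private theorem AB_crt (Q : ℕ) (r : ℕ → ℕ) (P : Finset ℕ) (hP : ∀ p ∈ P, p.Prime ∧ Nat.Coprime p Q) :
    ∃ n : ℕ, n ≡ 1 [MOD Q] ∧ ∀ p ∈ P, n ≡ r p [MOD p ^ 2] := by
  induction P using Finset.induction_on with
  | empty => exact ⟨1, rfl, fun p hp => absurd hp (Finset.notMem_empty p)⟩
  | insert q P hq ih =>
    obtain ⟨n, hn, hn'⟩ := ih fun p hp => hP p (Finset.mem_insert_of_mem hp)
    have hqP := hP q (Finset.mem_insert_self q P)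
    have hco : Nat.Coprime (Q * ∏ p ∈ P, p ^ 2) (q ^ 2) := by
      refine Nat.Coprime.mul_left (hqP.2.symm.pow_right 2) (Nat.Coprime.prod_left fun p hp => ?_)
      refine Nat.Coprime.pow 2 2 ((Nat.coprime_primes (hP p (Finset.mem_insert_of_mem hp)).1 hqP.1).2 ?_)
      rintro rfl
      exact hq hp
    obtain ⟨k, hk1, hk2⟩ := Nat.chineseRemainder hco n (r q)
    refine ⟨k, (hk1.of_mul_right _).trans hn, fun p hp => ?_⟩
    rcases Finset.mem_insert.1 hp with rfl | hp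
    · exact hk2
    · exact ((hk1.of_mul_left _).of_dvd (Finset.dvd_prod_of_mem (fun p => p ^ 2) hp)).trans (hn' p hp)

private theorem AB_nsq {v : HeightOneSpectrum (𝓞 ℚ)} {p : ℕ} (hp : p.Prime)
    (hv : ((p : ℕ) : 𝓞 ℚ) ∈ v.asIdeal) {x : ℚˣ} {n : ℕ} (hx : (x : ℚ) = n) (hn : ¬ IsSquare ((n : ℕ) : ZMod p)) :
    ¬ LSq v x := by
  intro h
  have := Fact.mk hp
  obtain ⟨r, hr⟩ := h 1
  have hD : ((r : ℚ).den : ℚ) ≠ 0 := by exact_mod_cast (r : ℚ).den_nz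
  have h1 : (((n : ℤ) * (r : ℚ).num ^ 2 - ((r : ℚ).den : ℤ) ^ 2 : ℤ) : ℚ) =
      ((r : ℚ).den : ℚ) ^ 2 * ((x : ℚ) * (r : ℚ) ^ 2 - 1) := by
    have h2 : (r : ℚ) = (r : ℚ).num / (r : ℚ).den := (Rat.num_div_den _).symm
    have h3 : (r : ℚ) ^ 2 * ((r : ℚ).den : ℚ) ^ 2 = ((r : ℚ).num : ℚ) ^ 2 := by
      rw [← mul_pow, Rat.mul_den_eq_num]
    rw [hx]
    push_cast
    linear_combination (-(n : ℚ)) * h3
  have h2 : v.valuation ℚ (((n : ℤ) * (r : ℚ).num ^ 2 - ((r : ℚ).den : ℤ) ^ 2 : ℤ) : ℚ) ≤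
      WithZero.exp (-((1 : ℕ) : ℤ)) := by
    rw [h1, map_mul]
    have h3 : v.valuation ℚ (((r : ℚ).den : ℚ) ^ 2) ≤ 1 := by
      have h4 : (((r : ℚ).den : ℚ) ^ 2) = algebraMap (𝓞 ℚ) ℚ (((r : ℚ).den : 𝓞 ℚ) ^ 2) := by
        rw [map_pow, map_natCast]
      rw [h4]
      exact v.valuation_le_one _
    calc v.valuation ℚ (((r : ℚ).den : ℚ) ^ 2) * v.valuation ℚ ((x : ℚ) * (r : ℚ) ^ 2 - 1)
        ≤ 1 * WithZero.exp (-((1 : ℕ) : ℤ)) := mul_le_mul' h3 hr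
      _ = _ := one_mul _
  have h3 := (AB_val hp hv _ 1).1 h2
  rw [pow_one] at h3
  have h4 : (((n : ℤ) * (r : ℚ).num ^ 2 - ((r : ℚ).den : ℤ) ^ 2 : ℤ) : ZMod p) = 0 :=
    (ZMod.intCast_zmod_eq_zero_iff_dvd _ p).2 h3
  push_cast at h4
  have h5 : (n : ZMod p) * ((r : ℚ).num : ZMod p) ^ 2 = ((r : ℚ).den : ZMod p) ^ 2 := sub_eq_zero.1 h4
  have h6 : ((r : ℚ).num : ZMod p) ≠ 0 := by
    intro h6
    have h7 : ((r : ℚ).den : ZMod p) = 0 := by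
      rw [h6, zero_pow two_ne_zero, mul_zero] at h5
      exact pow_eq_zero_iff two_ne_zero |>.1 h5.symm
    have h8 : p ∣ (r : ℚ).den := (ZMod.natCast_eq_zero_iff _ p).1 h7
    have h9 : (p : ℤ) ∣ (r : ℚ).num := (ZMod.intCast_zmod_eq_zero_iff_dvd _ p).1 h6
    have h10 : p ∣ (r : ℚ).num.natAbs := Int.natCast_dvd.1 h9
    have h11 : p ∣ 1 := by
      have h12 := Nat.dvd_gcd h10 h8
      rwa [(r : ℚ).reduced] at h12
    exact hp.one_lt.ne' (Nat.dvd_one.1 h11)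
  refine hn ⟨((r : ℚ).den : ZMod p) / ((r : ℚ).num : ZMod p), ?_⟩
  field_simp
  exact h5

private theorem AB_unit {Q n : ℕ} (hQ : 8 ≤ Q) (hn : n ≡ 1 [MOD Q]) : (n : ℚ) ≠ 0 := by
  intro h
  have h1 : n = 0 := by exact_mod_cast h
  rw [h1] at hn
  have h2 : Q ∣ 1 := Nat.modEq_zero_iff_dvd.1 hn.symm
  have := Nat.le_of_dvd one_pos h2
  omega

theorem exists_ab {T : Finset ℕ} (hTp : ∀ p ∈ T, p.Prime) (h2 : 2 ∈ T) (L : ℕ) :
    ∃ a b : ℚˣ,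
      (∀ v : HeightOneSpectrum (𝓞 ℚ), ¬ Away ℚ T v → LSq v a ∧ LSq v b) ∧
      ∀ (v : HeightOneSpectrum (𝓞 ℚ)) (p : ℕ), p.Prime → p ≤ L → p ∉ T →
        ((p : ℕ) : 𝓞 ℚ) ∈ v.asIdeal → ¬ LSq v a ∧ ¬ LSq v b ∧ ¬ LSq v (a * b) := by
  classical
  have hQ := AB_Q T hTp
  set Q : ℕ := 8 * ∏ p ∈ T, p with hQd
  have hcop : ∀ p : ℕ, p.Prime → p ∉ T → Nat.Coprime p Q := by
    intro p hp hpT
    have h1 : p ≠ 2 := by
      rintro rfl
      exact hpT h2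
    have h3 : Nat.Coprime p 2 := (Nat.coprime_primes hp Nat.prime_two).2 h1
    have h4 : Nat.Coprime p 8 := by
      have := h3.pow_right 3
      norm_num at this
      exact this
    refine Nat.Coprime.mul_right h4 (Nat.Coprime.prod_right fun q hq => ?_)
    refine (Nat.coprime_primes hp (hTp q hq)).2 ?_
    rintro rfl
    exact hpT hq
  let P : Finset ℕ := (Finset.range (L + 1)).filter fun p => p.Prime ∧ p ∉ T
  have hP : ∀ p ∈ P, p.Prime ∧ Nat.Coprime p Q := fun p hp => by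
    have := (Finset.mem_filter.1 hp).2
    exact ⟨this.1, hcop p this.1 this.2⟩
  have hres : ∀ p : ℕ, ∃ r : ℕ, p.Prime → p ≠ 2 → ¬ IsSquare ((r : ℕ) : ZMod p) := by
    intro p
    by_cases hp : p.Prime ∧ p ≠ 2
    · have := Fact.mk hp.1
      obtain ⟨x, hx⟩ := FiniteField.exists_nonsquare (F := ZMod p) (by rw [ZMod.ringChar_zmod_n]; exact hp.2)
      exact ⟨x.val, fun _ _ => by rwa [ZMod.natCast_zmod_val]⟩
    · exact ⟨0, fun h h' => absurd ⟨h, h'⟩ hp⟩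
  choose r hr using hres
  obtain ⟨a, ha, ha'⟩ := AB_crt Q r P hP
  obtain ⟨b, hb, hb'⟩ := AB_crt Q (fun p => p) P hP
  have hd : ∀ n : ℕ, n ≡ 1 [MOD Q] → ((8 * ∏ p ∈ T, p : ℕ) : ℤ) ∣ (n : ℤ) - 1 := fun n hn => by
    have := Nat.modEq_iff_dvd.1 hn.symm
    simpa [hQd] using this
  refine ⟨Units.mk0 (a : ℚ) (AB_unit hQ ha), Units.mk0 (b : ℚ) (AB_unit hQ hb), fun v hv => ⟨?_, ?_⟩, ?_⟩
  · exact AB_lsq hTp hv (n := (a : ℤ)) (by simp) (hd a ha)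
  · exact AB_lsq hTp hv (n := (b : ℤ)) (by simp) (hd b hb)
  · intro v p hp hpL hpT hpv
    have hpP : p ∈ P := Finset.mem_filter.2 ⟨Finset.mem_range.2 (by omega), hp, hpT⟩
    have hp2 : p ≠ 2 := by
      rintro rfl
      exact hpT h2
    have ha1 : ¬ IsSquare ((a : ℕ) : ZMod p) := by
      have h3 : ((a : ℕ) : ZMod p) = ((r p : ℕ) : ZMod p) :=
        (ZMod.natCast_eq_natCast_iff _ _ _).2 ((ha' p hpP).of_dvd (Dvd.intro_left _ (by ring : p * p = p ^ 2)))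
      rw [h3]
      exact hr p hp hp2
    have ha2 := AB_nsq hp hpv (x := Units.mk0 (a : ℚ) (AB_unit hQ ha)) (n := a) rfl ha1
    have hpa : ¬ (p : ℤ) ∣ (a : ℤ) := fun h3 => ha1 (by
      have h4 : ((a : ℕ) : ZMod p) = 0 := (ZMod.natCast_eq_zero_iff a p).2 (by exact_mod_cast h3)
      rw [h4]
      exact ⟨0, by simp⟩)
    have ha3 : ordK v (Units.mk0 (a : ℚ) (AB_unit hQ ha)) = 0 := by
      refine ordK_eq_zero_of_not_mem v _ (((a : ℤ) : ℤ) : 𝓞 ℚ) ?_ ?_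
      · rw [map_intCast]
        simp
      · rw [AB_mem1 hp hpv]
        exact hpa
    have hbp : (b : ℤ) ≡ p [ZMOD (p : ℤ) ^ 2] := by
      have h3 := (Int.natCast_modEq_iff).2 (hb' p hpP)
      simpa using h3
    have hb3 : ordK v (Units.mk0 (b : ℚ) (AB_unit hQ hb)) = 1 := by
      have h3 := AB_ord hp hpv (x := Units.mk0 (b : ℚ) (AB_unit hQ hb)) (n := (b : ℤ)) (by simp)
      have h4 : (p : ℤ) ∣ (b : ℤ) := by
        have h5 : (p : ℤ) ∣ (p : ℤ) - b := (dvd_pow_self (p : ℤ) two_ne_zero).trans hbp.dvd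
        exact (dvd_sub_right (dvd_refl _)).1 h5
      have h6 : ¬ (p : ℤ) ^ 2 ∣ (b : ℤ) := fun h7 => by
        have h8 : (p : ℤ) ^ 2 ∣ (p : ℤ) := (dvd_sub_left h7).1 hbp.dvd
        have h9 : p ^ 2 ∣ p := by exact_mod_cast h8
        have h10 := Nat.le_of_dvd hp.pos h9
        have := hp.two_le
        nlinarith
      have h7 := (h3 1).2 (by rwa [pow_one])
      have h8 : ¬ ((2 : ℕ) : ℤ) ≤ ordK v (Units.mk0 (b : ℚ) (AB_unit hQ hb)) := fun h9 => h6 ((h3 2).1 h9)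
      push_cast at h7 h8
      omega
    refine ⟨ha2, fun h3 => ?_, fun h3 => ?_⟩
    · have h4 := even_of_LSq h3
      rw [hb3] at h4
      exact absurd h4 (by decide)
    · have h4 := even_of_LSq h3
      rw [ordK_mul, ha3, hb3] at h4
      exact absurd h4 (by decide)

theorem exists_d {T : Finset ℕ} (hTp : ∀ p ∈ T, p.Prime) (h2 : 2 ∈ T) :
    ∃ d : ℚˣ, (d : ℚ) < 0 ∧ ∀ v : HeightOneSpectrum (𝓞 ℚ), ¬ Away ℚ T v → LSq v d := by
  have hQ := AB_Q T hTp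
  set Q : ℕ := 8 * ∏ p ∈ T, p with hQd
  have h8 : (8 : ℚ) ≤ Q := by exact_mod_cast hQ
  have hneg : (1 : ℚ) - Q < 0 := by linarith
  refine ⟨Units.mk0 (1 - (Q : ℚ)) hneg.ne, hneg, fun v hv => ?_⟩
  refine AB_lsq hTp hv (n := 1 - (Q : ℤ)) ?_ ?_
  · rw [Units.val_mk0]
    push_cast
    ring
  · rw [← hQd]
    exact ⟨-1, by ring⟩

end Pool.Agent.THF
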