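import Pool.Agent.THF.L.Defs
import Pool.Agent.H73.AL.Real
import Pool.Agent.QD.N4.Real

/-!
# THF/L-Cx: complex conjugation

PLAN.  `exists_cx`, `mark_cx`: see the proof of `rel_real` (H73/AL/Real.lean; private lemmas can be copied): `i : AlgebraicClosure ℚ →+* ℂ` (`IsAlgClosed.lift`), `c = i⁻¹ ∘ conj ∘ i`; `φ ↦ i ∘ φ` is a bijection from `F →+* AlgebraicClosure ℚ` to `F →+* ℂ`, and `c • φ = φ` iff `i ∘ φ` is a real embedding.
`cx_sq`: `c (c x) = x`.  `tc_of`: a ring homomorphism `F →+* ℝ` gives `F →+* ℂ`, so a `φ` with `c • φ = φ`, `c ∈ stb φ`; `φ = g • φ0` (`trans_emb`, H73/AL/Extract), `stb φ = g (stb φ0) g⁻¹`, so `g⁻¹ c g ∈ stb φ0`.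
`cx_neg`: `s² = φ d`-like: for `s : AlgebraicClosure ℚ` with `s^2 = q`, `q` a negative rational number: `i s` is purely imaginary, `conj (i s) = - i s`, so `c s = -s`.
`cx_real`: `c x = x` iff `i x` is real: `(i x).im = 0`.
-/

namespace Pool.Agent.THF

open NumberField IsDedekindDomain Pool.Agent.HWR Pool.Agent.LD Pool.Agent.H73.AL
  Pool.Agent.H73.DU

private theorem cx_alg_cl (inst : Algebra ℚ (AlgebraicClosure ℚ)) :
    IsAlgClosure ℚ (AlgebraicClosure ℚ) := by
  have h : inst = AlgebraicClosure.instAlgebra ℚ := Subsingleton.elim _ _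
  subst h
  infer_instance

private theorem cx_bij (i : AlgebraicClosure ℚ →+* ℂ) (F : Type) [Field F] [NumberField F] :
    Function.Bijective (fun φ : F →+* AlgebraicClosure ℚ => i.comp φ) := by
  classical
  have hinj : Function.Injective (fun φ : F →+* AlgebraicClosure ℚ => i.comp φ) := by
    intro φ ψ h
    ext x
    have := RingHom.congr_fun h x
    exact i.injective this
  rw [Fintype.bijective_iff_injective_and_card]
  refine ⟨hinj, ?_⟩
  rw [NumberField.Embeddings.card F (AlgebraicClosure ℚ), NumberField.Embeddings.card F ℂ]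

theorem exists_cx : ∃ (i : AlgebraicClosure ℚ →+* ℂ) (c : GQ), IsCx i c := by
  have h1 : IsAlgClosure ℚ (AlgebraicClosure ℚ) := cx_alg_cl inferInstance
  have h2 : Algebra.IsAlgebraic ℚ (AlgebraicClosure ℚ) := h1.isAlgebraic
  have h3 : Normal ℚ (AlgebraicClosure ℚ) := IsAlgClosure.normal ℚ _
  let i : AlgebraicClosure ℚ →ₐ[ℚ] ℂ := IsAlgClosed.lift
  let _ : Algebra (AlgebraicClosure ℚ) ℂ := i.toRingHom.toAlgebra
  have : IsScalarTower ℚ (AlgebraicClosure ℚ) ℂ :=
    IsScalarTower.of_algebraMap_eq fun x => (i.commutes x).symm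
  let χ : ℂ ≃ₐ[ℚ] ℂ := AlgEquiv.ofRingEquiv (f := starRingAut) (fun r => by simp)
  refine ⟨i.toRingHom, χ.restrictNormal (AlgebraicClosure ℚ), ?_⟩
  intro x
  exact AlgEquiv.restrictNormal_commutes χ (AlgebraicClosure ℚ) x

variable {i : AlgebraicClosure ℚ →+* ℂ} {c : GQ} (h : IsCx i c)

include h

theorem cx_sq : c * c = 1 := by
  apply AlgEquiv.ext
  intro x
  apply i.injective
  change i (c (c x)) = i x
  rw [h, h, Complex.conj_conj]

theorem cx_real (x : AlgebraicClosure ℚ) : c x = x ↔ (i x).im = 0 := by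
  rw [← Complex.conj_eq_iff_im, ← h]
  exact i.injective.eq_iff.symm

theorem cx_neg {q : ℚ} (hq : q < 0) {s : AlgebraicClosure ℚ}
    (hs : s ^ 2 = algebraMap ℚ (AlgebraicClosure ℚ) q) : c s = -s ∧ s ≠ 0 := by
  have h1 : (i s) ^ 2 = (q : ℂ) := by
    rw [← map_pow, hs]
    simp
  have h2 : s ≠ 0 := by
    rintro rfl
    rw [map_zero, zero_pow two_ne_zero] at h1
    have : q = 0 := by exact_mod_cast h1.symm
    exact hq.ne this
  refine ⟨?_, h2⟩
  have h3 : (c s) ^ 2 = s ^ 2 := by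
    rw [← map_pow, hs]
    simp
  rcases sq_eq_sq_iff_eq_or_eq_neg.1 h3 with h4 | h4
  · exfalso
    have h5 := (cx_real h s).1 h4
    have h6 : i s = ((i s).re : ℂ) := by
      apply Complex.ext
      · simp
      · simp [h5]
    rw [h6] at h1
    have h7 : ((i s).re) ^ 2 = (q : ℝ) := by exact_mod_cast h1
    have h8 : (q : ℝ) < 0 := by exact_mod_cast hq
    nlinarith [sq_nonneg (i s).re]
  · exact h4

theorem mark_cx (F : Type) [Field F] [NumberField F] :
    mark F (Subgroup.zpowers c) = (InfinitePlace.nrRealPlaces F : ℤ) := by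
  unfold mark pch
  classical
  rw [← InfinitePlace.card_real_embeddings (K := F), ← Nat.card_eq_fintype_card]
  congr 1
  have hbij := cx_bij i F
  have hiff : ∀ φ : F →+* AlgebraicClosure ℚ,
      φ ∈ fx (F →+* AlgebraicClosure ℚ) (Subgroup.zpowers c) ↔
        ComplexEmbedding.IsReal (i.comp φ) := by
    intro φ
    rw [fx_zpowers, ComplexEmbedding.isReal_iff]
    constructor
    · intro h5
      ext x
      have h1 : c (φ x) = φ x := by
        rw [← smul_emb, h5]
      show starRingEnd ℂ (i (φ x)) = i (φ x)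
      rw [← h, h1]
    · intro h5
      ext x
      rw [smul_emb]
      apply i.injective
      rw [h]
      exact RingHom.congr_fun h5 x
  exact Nat.card_congr ((Equiv.ofBijective _ hbij).subtypeEquiv hiff)

theorem tc_of (F : Type) [Field F] [NumberField F] (φ : F →+* AlgebraicClosure ℚ)
    (hφ : ∀ g : GQ, g⁻¹ * c * g ∉ stb φ) : IsEmpty (F →+* ℝ) := by
  refine ⟨fun ψ => ?_⟩
  obtain ⟨φ1, h1⟩ := (cx_bij i F).2 (Complex.ofRealHom.comp ψ)
  have h2 : ∀ x, i (φ1 x) = ((ψ x : ℝ) : ℂ) := fun x => RingHom.congr_fun h1 x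
  have h3 : c • φ1 = φ1 := by
    ext x
    rw [smul_emb]
    apply i.injective
    rw [h, h2, Complex.conj_ofReal]
  obtain ⟨g, hg⟩ := trans_emb F φ φ1
  refine hφ g ?_
  change (g⁻¹ * c * g) • φ = φ
  rw [mul_smul, mul_smul, hg, h3, ← hg, inv_smul_smul]

end Pool.Agent.THF
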