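import Pool.Agent.THF.L.Defs
import Pool.Agent.MD.L.FixT
import Pool.Agent.LD.L.Deg
import Pool.Agent.LD.L.Fld

/-!
# THF/L-Sq: fields containing the square root of a number which is no local square (paper 1 (b))

PLAN.  `root_fix`: `U ∈ famT T`: by `fix_T` (`K = ℚ`, `x = a`) either `U` fixes `sa`, or `U = zpowers u`: `u sa = ± sa`, `u sb = ± sb`; so `u` (and `U`) fixes `sa`, `sb` or `sa * sb`.  `N` fixes `sa` and `sb`, so `U ⊔ N` fixes the same element.
`sqrt_mem`: `stb ψ` is the fixing subgroup of `ψ(F)` (an element of `GQ` fixes `ψ` iff it fixes `ψ(F)` pointwise); `s` is fixed by it, so `s ∈ ψ(F)` (`InfiniteGalois.fixedField_fixingSubgroup`): `s = ψ θ`, `ψ (θ²) = s² = x = ψ x`, `θ² = x`.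
`even_of`: `two_dvd` (LD/L/Deg) for `K = ℚ`, `M = F`, `x`, the place `v` of `ℚ` under `w` (it contains `p`; `Over v w`: comap of the ideal, a place of `ℚ`).
-/

namespace Pool.Agent.THF

open NumberField IsDedekindDomain Pool.Agent.HWR Pool.Agent.QD Pool.Agent.LD Pool.Agent.H73.AL
  Pool.Agent.H73.DU

/-- the subgroup fixing an element -/
private def sq_fx (x : AlgebraicClosure ℚ) : Subgroup GQ where
  carrier := {g | g x = x}
  one_mem' := rfl
  mul_mem' := by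
    intro g h hg hh
    change g (h x) = x
    rw [show h x = x from hh]
    exact hg
  inv_mem' := by
    intro g hg
    change g.symm x = x
    rw [AlgEquiv.symm_apply_eq]
    exact (show g x = x from hg).symm

private theorem sq_pm {a : ℚ} {s : AlgebraicClosure ℚ}
    (hs : s ^ 2 = algebraMap ℚ (AlgebraicClosure ℚ) a) (u : GQ) : u s = s ∨ u s = -s := by
  refine sq_eq_sq_iff_eq_or_eq_neg.1 ?_
  rw [← map_pow, hs, AlgEquiv.commutes]

theorem root_fix {T : Finset ℕ} {a b : ℚˣ}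
    (ha : ∀ v : HeightOneSpectrum (𝓞 ℚ), ¬ Away ℚ T v → LSq v a) {sa sb : AlgebraicClosure ℚ}
    (hsa : sa ^ 2 = algebraMap ℚ (AlgebraicClosure ℚ) (a : ℚ))
    (hsb : sb ^ 2 = algebraMap ℚ (AlgebraicClosure ℚ) (b : ℚ)) {N U : Subgroup GQ}
    (hn : N.Normal) (hN : ∀ g ∈ N, g sa = sa ∧ g sb = sb) (hU : U ∈ famT T) :
    (∀ g ∈ U ⊔ N, g sa = sa) ∨ (∀ g ∈ U ⊔ N, g sb = sb) ∨ ∀ g ∈ U ⊔ N, g (sa * sb) = sa * sb := by
  have hNa : N ≤ sq_fx sa := fun g hg => (hN g hg).1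
  have hNb : N ≤ sq_fx sb := fun g hg => (hN g hg).2
  have hNab : N ≤ sq_fx (sa * sb) := by
    intro g hg
    change g (sa * sb) = sa * sb
    rw [map_mul, (hN g hg).1, (hN g hg).2]
  have hst : U ≤ stb (algebraMap ℚ (AlgebraicClosure ℚ)) := fun g _ => Subsingleton.elim _ _
  rcases Pool.Agent.MD.fix_T T (algebraMap ℚ (AlgebraicClosure ℚ)) a sa hsa ha U hU hst with
    hc | hc
  · obtain ⟨u, rfl⟩ := hc
    have key : ∀ x : AlgebraicClosure ℚ, N ≤ sq_fx x → u x = x →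
        ∀ g ∈ Subgroup.zpowers u ⊔ N, g x = x := by
      intro x hx hu g hg
      have h1 : Subgroup.zpowers u ⊔ N ≤ sq_fx x := sup_le ((Subgroup.zpowers_le).2 hu) hx
      exact h1 hg
    rcases sq_pm hsa u with h1 | h1
    · exact Or.inl (key sa hNa h1)
    · rcases sq_pm hsb u with h2 | h2
      · exact Or.inr (Or.inl (key sb hNb h2))
      · refine Or.inr (Or.inr (key (sa * sb) hNab ?_))
        rw [map_mul, h1, h2, neg_mul_neg]
  · refine Or.inl fun g hg => ?_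
    have h1 : U ⊔ N ≤ sq_fx sa := sup_le (fun g hg => hc g hg) hNa
    exact h1 hg

private theorem sq_cl (inst : Algebra ℚ (AlgebraicClosure ℚ)) :
    IsAlgClosure ℚ (AlgebraicClosure ℚ) := by
  have h : inst = AlgebraicClosure.instAlgebra ℚ := Subsingleton.elim _ _
  subst h
  infer_instance

private theorem sq_gal : IsGalois ℚ (AlgebraicClosure ℚ) := by
  have : IsAlgClosure ℚ (AlgebraicClosure ℚ) := sq_cl inferInstance
  have : Normal ℚ (AlgebraicClosure ℚ) := IsAlgClosure.normal ℚ _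
  exact {}

theorem sqrt_mem {F : Type} [Field F] [NumberField F] (ψ : F →+* AlgebraicClosure ℚ) {x : ℚ}
    {s : AlgebraicClosure ℚ} (hs : s ^ 2 = algebraMap ℚ (AlgebraicClosure ℚ) x)
    (h : ∀ g ∈ stb ψ, g s = s) : ∃ θ : F, θ ^ 2 = algebraMap ℚ F x := by
  have := sq_gal
  have hsub : ψ.comp (algebraMap ℚ F) = algebraMap ℚ (AlgebraicClosure ℚ) :=
    Subsingleton.elim _ _
  let ψ' : F →ₐ[ℚ] AlgebraicClosure ℚ :=
    { ψ with commutes' := fun r => RingHom.congr_fun hsub r }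
  have h1 : s ∈ IntermediateField.fixedField (ψ'.fieldRange.fixingSubgroup) := by
    intro g
    have hg : ∀ y ∈ ψ'.fieldRange, (g : GQ) y = y :=
      (IntermediateField.mem_fixingSubgroup_iff _ _).1 g.2
    refine h (g : GQ) ?_
    change (g : GQ) • ψ = ψ
    refine RingHom.ext fun y => ?_
    exact hg (ψ y) ⟨y, rfl⟩
  rw [InfiniteGalois.fixedField_fixingSubgroup] at h1
  obtain ⟨θ, hθ⟩ := h1
  refine ⟨θ, ψ.injective ?_⟩
  have h2 : ψ θ = s := hθ
  rw [map_pow, h2, hs]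
  exact (RingHom.congr_fun hsub x).symm

theorem even_of (F : Type) [Field F] [NumberField F] {x : ℚˣ} {θ : F}
    (hθ : θ ^ 2 = algebraMap ℚ F (x : ℚ)) {p : ℕ} (hp : p.Prime)
    (hx : ∀ v : HeightOneSpectrum (𝓞 ℚ), ((p : ℕ) : 𝓞 ℚ) ∈ v.asIdeal → ¬ LSq v x)
    (w : HeightOneSpectrum (𝓞 F)) (hw : ((p : ℕ) : 𝓞 F) ∈ w.asIdeal) : 2 ∣ locDeg ℚ w := by
  have hmem : ((p : ℕ) : 𝓞 ℚ) ∈ w.asIdeal.comap (algebraMap (𝓞 ℚ) (𝓞 F)) := by
    rw [Ideal.mem_comap, map_natCast]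
    exact hw
  have hwp : w.asIdeal.IsPrime := w.isPrime
  have hne : w.asIdeal.comap (algebraMap (𝓞 ℚ) (𝓞 F)) ≠ ⊥ := by
    intro h0
    rw [h0, Ideal.mem_bot] at hmem
    exact hp.ne_zero (by exact_mod_cast hmem)
  let v : HeightOneSpectrum (𝓞 ℚ) :=
    ⟨w.asIdeal.comap (algebraMap (𝓞 ℚ) (𝓞 F)), Ideal.IsPrime.comap _, hne⟩
  exact two_dvd F x θ hθ v (hx v hmem) w rfl

end Pool.Agent.THF
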