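import Pool.Agent.H73.DU.Ind

/-!
# THF/L-Artin: functions on a family of subgroups as combinations of marks

A class function `f` on a family `S0` of subgroups containing a normal subgroup `N` of finite
index, closed under conjugation and under passing to smaller subgroups containing `N`, is, up to
a positive multiple, a difference of sums of marks `pc J`, `J ∈ S0`.  The proof is by induction on
the number of elements of `S0` having a conjugate contained in an element of the support of `f`;
one subtracts a multiple of `pc H` with `H` of minimal index in the support.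
-/

namespace Pool.Agent.THF

open Pool.Agent.H73.DU

section
variable {G : Type} [Group G]

private theorem artin_cj_cj (a b : G) (U : Subgroup G) : cj b (cj a U) = cj (a * b) U := by
  ext g
  constructor
  · intro hg
    obtain ⟨u, hu, rfl⟩ := mem_cj_iff.1 hg
    obtain ⟨v, hv, rfl⟩ := mem_cj_iff.1 hu
    exact mem_cj_iff.2 ⟨v, hv, by group⟩
  · intro hg
    obtain ⟨v, hv, rfl⟩ := mem_cj_iff.1 hg
    exact mem_cj_iff.2 ⟨a⁻¹ * v * a, mem_cj hv, by group⟩

private theorem artin_cj_one (U : Subgroup G) : cj 1 U = U := by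
  ext g
  constructor
  · intro hg
    obtain ⟨u, hu, rfl⟩ := mem_cj_iff.1 hg
    simpa using hu
  · intro hg
    exact mem_cj_iff.2 ⟨g, hg, by simp⟩

private theorem artin_cj_mono (a : G) {U V : Subgroup G} (h : U ≤ V) : cj a U ≤ cj a V :=
  Subgroup.map_mono h

private theorem artin_index (a : G) (U : Subgroup G) : (cj a U).index = U.index :=
  Subgroup.index_map_equiv U (MulAut.conj a⁻¹)

private theorem artin_le_cj (N : Subgroup G) [N.Normal] (a : G) {U : Subgroup G} (h : N ≤ U) :
    N ≤ cj a U := by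
  intro g hg
  refine mem_cj_iff.2 ⟨a * g * a⁻¹, h (Subgroup.Normal.conj_mem inferInstance g hg a), ?_⟩
  group

private theorem artin_ne {J U : Subgroup G} (h : pc J U ≠ 0) : ∃ g : G, cj g U ≤ J := by
  have h1 : Nat.card (fx (G ⧸ J) U) ≠ 0 := by
    intro h2
    exact h (by
      change ((Nat.card (fx (G ⧸ J) U) : ℕ) : ℤ) = 0
      rw [h2]
      rfl)
  obtain ⟨⟨x, hx⟩⟩ := (Nat.card_ne_zero.1 h1).1
  obtain ⟨g, rfl⟩ := QuotientGroup.mk_surjective x
  refine ⟨g, fun v hv => ?_⟩
  obtain ⟨u, hu, rfl⟩ := mem_cj_iff.1 hv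
  have h2 : ((u * g : G) : G ⧸ J) = (g : G ⧸ J) := hx u hu
  rw [QuotientGroup.eq] at h2
  have h3 : g⁻¹ * u * g = ((u * g)⁻¹ * g)⁻¹ := by group
  rw [h3]
  exact J.inv_mem h2

private theorem artin_pos (J : Subgroup G) [J.FiniteIndex] : 0 < Nat.card (fx (G ⧸ J) J) := by
  have hfin : Finite (G ⧸ J) := inferInstance
  refine Nat.card_pos_iff.2 ⟨⟨⟨((1 : G) : G ⧸ J), ?_⟩⟩, inferInstance⟩
  intro u hu
  change ((u * 1 : G) : G ⧸ J) = ((1 : G) : G ⧸ J)
  rw [QuotientGroup.eq]
  simpa using hu

private theorem artin_pc_cj (J U : Subgroup G) (a : G) : pc J (cj a U) = pc J U := by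
  change ((Nat.card (fx (G ⧸ J) (cj a U)) : ℕ) : ℤ) = ((Nat.card (fx (G ⧸ J) U) : ℕ) : ℤ)
  congr 1
  refine Nat.card_congr
    { toFun := fun x => ⟨a • x.1, ?_⟩
      invFun := fun x => ⟨a⁻¹ • x.1, ?_⟩
      left_inv := fun x => Subtype.ext (inv_smul_smul a x.1)
      right_inv := fun x => Subtype.ext (smul_inv_smul a x.1) }
  · intro u hu
    have h1 : (a⁻¹ * u * a) • x.1 = x.1 := x.2 _ (mem_cj hu)
    calc u • a • x.1 = a • ((a⁻¹ * u * a) • x.1) := by
          rw [smul_smul, smul_smul]
          congr 1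
          group
      _ = a • x.1 := by rw [h1]
  · intro v hv
    obtain ⟨u, hu, rfl⟩ := mem_cj_iff.1 hv
    have h1 : u • x.1 = x.1 := x.2 u hu
    calc (a⁻¹ * u * a) • a⁻¹ • x.1 = a⁻¹ • u • x.1 := by
          rw [smul_smul, smul_smul]
          congr 1
          group
      _ = a⁻¹ • x.1 := by rw [h1]

private theorem artin_finite (N : Subgroup G) [N.Normal] [N.FiniteIndex]
    (S0 : Set (Subgroup G)) (hN : ∀ H ∈ S0, N ≤ H) : S0.Finite := by
  have : Finite (G ⧸ N) := inferInstance
  refine Set.Finite.of_finite_image (f := fun H => H.map (QuotientGroup.mk' N))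
    (Set.toFinite _) ?_
  intro H hH H' hH' h
  have h1 : (H.map (QuotientGroup.mk' N)).comap (QuotientGroup.mk' N) =
      (H'.map (QuotientGroup.mk' N)).comap (QuotientGroup.mk' N) := by
    have h2 : H.map (QuotientGroup.mk' N) = H'.map (QuotientGroup.mk' N) := h
    rw [h2]
  rw [QuotientGroup.comap_map_mk', QuotientGroup.comap_map_mk', sup_eq_right.2 (hN H hH),
    sup_eq_right.2 (hN H' hH')] at h1
  exact h1

/-- The elements of `S0` with a conjugate in an element of the support of `f`. -/
private def artinD (S0 : Set (Subgroup G)) (f : Subgroup G → ℤ) : Set (Subgroup G) :=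
  {H | H ∈ S0 ∧ ∃ H' ∈ S0, f H' ≠ 0 ∧ ∃ a : G, cj a H ≤ H'}

private theorem artin_main (N : Subgroup G) [N.Normal] [N.FiniteIndex]
    (S0 : Set (Subgroup G)) (hN : ∀ H ∈ S0, N ≤ H) (n : ℕ) :
    ∀ f : Subgroup G → ℤ, (∀ H ∈ S0, ∀ a : G, f (cj a H) = f H) →
    (artinD S0 f).ncard < n →
    ∃ (m : ℕ) (A B : List (Subgroup G)), 0 < m ∧ (∀ J ∈ A ++ B, J ∈ S0) ∧
      ∀ U ∈ S0, m * f U + (A.map fun J => pc J U).sum = (B.map fun J => pc J U).sum := by
  have hfin := artin_finite N S0 hN
  induction n with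
  | zero =>
    intro f _ h
    exact absurd h (Nat.not_lt_zero _)
  | succ n ih =>
    intro f hf hlt
    by_cases h0 : ∀ U ∈ S0, f U = 0
    · refine ⟨1, [], [], one_pos, by simp, fun U hU => ?_⟩
      rw [h0 U hU]
      simp
    push Not at h0
    obtain ⟨H, ⟨hH, hfH⟩, hmin⟩ := (measure (fun H : Subgroup G => H.index)).wf.has_min
      {H | H ∈ S0 ∧ f H ≠ 0} h0
    have hmin' : ∀ H' ∈ S0, f H' ≠ 0 → H.index ≤ H'.index := by
      intro H' hH' hf'
      have := hmin H' ⟨hH', hf'⟩
      exact not_lt.1 this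
    have hfi : ∀ J ∈ S0, J.FiniteIndex := fun J hJ => Subgroup.finiteIndex_of_le (hN J hJ)
    have hHfi := hfi H hH
    set p : ℕ := Nat.card (fx (G ⧸ H) H) with hp
    have hp0 : 0 < p := artin_pos H
    have hpc : pc H H = p := rfl
    let f' : Subgroup G → ℤ := fun U => p * f U - f H * pc H U
    have hf' : ∀ U ∈ S0, ∀ a : G, f' (cj a U) = f' U := by
      intro U hU a
      change (p : ℤ) * f (cj a U) - f H * pc H (cj a U) = p * f U - f H * pc H U
      rw [hf U hU, artin_pc_cj]
    have hf'H : f' H = 0 := by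
      change (p : ℤ) * f H - f H * pc H H = 0
      rw [hpc]
      ring
    have hor : ∀ U, f' U ≠ 0 → f U ≠ 0 ∨ ∃ g : G, cj g U ≤ H := by
      intro U hU
      by_cases h1 : f U = 0
      · right
        refine artin_ne fun h2 => hU ?_
        change (p : ℤ) * f U - f H * pc H U = 0
        rw [h1, h2]
        ring
      · exact Or.inl h1
    have hsub : artinD S0 f' ⊆ artinD S0 f := by
      rintro K ⟨hK, H', hH', h1, a, ha⟩
      refine ⟨hK, ?_⟩
      rcases hor H' h1 with h2 | ⟨g, hg⟩
      · exact ⟨H', hH', h2, a, ha⟩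
      · refine ⟨H, hH, hfH, a * g, ?_⟩
        rw [← artin_cj_cj]
        exact (artin_cj_mono g ha).trans hg
    have hnot : H ∉ artinD S0 f' := by
      rintro ⟨-, H', hH', h1, a, ha⟩
      have h2 : H.index ≤ H'.index := by
        rcases hor H' h1 with h2 | ⟨g, hg⟩
        · exact hmin' H' hH' h2
        · have h4 : (cj g H').FiniteIndex := ⟨by
            rw [artin_index]
            exact (hfi H' hH').index_ne_zero⟩
          have h3 := Subgroup.index_antitone hg
          rwa [artin_index] at h3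
      have h3 : cj a H = H' := by
        by_contra hne
        have h4 : (cj a H).FiniteIndex := ⟨by
          rw [artin_index]
          exact hHfi.index_ne_zero⟩
        have h5 := Subgroup.index_strictAnti (lt_of_le_of_ne ha hne)
        rw [artin_index] at h5
        omega
      apply h1
      rw [← h3, hf' H hH]
      exact hf'H
    have hmem : H ∈ artinD S0 f :=
      ⟨hH, H, hH, hfH, 1, by rw [artin_cj_one]⟩
    have hlt' : (artinD S0 f').ncard < n := by
      have h1 : (artinD S0 f').ncard < (artinD S0 f).ncard := by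
        refine Set.ncard_lt_ncard ⟨hsub, fun h => hnot (h hmem)⟩ ?_
        exact hfin.subset fun K hK => hK.1
      omega
    obtain ⟨m, A, B, hm, hAB, hU⟩ := ih f' hf' hlt'
    have key : ∀ U ∈ S0, (m : ℤ) * (p * f U - f H * pc H U) + (A.map fun J => pc J U).sum =
        (B.map fun J => pc J U).sum := hU
    rcases le_total 0 (f H) with h1 | h1
    · refine ⟨m * p, A, B ++ List.replicate (m * (f H).toNat) H, Nat.mul_pos hm hp0, ?_, ?_⟩
      · intro J hJ
        rw [← List.append_assoc, List.mem_append] at hJ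
        rcases hJ with hJ | hJ
        · exact hAB J hJ
        · rw [List.eq_of_mem_replicate hJ]
          exact hH
      · intro U hU
        rw [List.map_append, List.sum_append, List.map_replicate, List.sum_replicate,
          nsmul_eq_mul, ← key U hU]
        push_cast
        rw [Int.toNat_of_nonneg h1]
        ring
    · refine ⟨m * p, A ++ List.replicate (m * (-f H).toNat) H, B, Nat.mul_pos hm hp0, ?_, ?_⟩
      · intro J hJ
        rw [List.mem_append, List.mem_append] at hJ
        rcases hJ with (hJ | hJ) | hJ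
        · exact hAB J (List.mem_append.2 (Or.inl hJ))
        · rw [List.eq_of_mem_replicate hJ]
          exact hH
        · exact hAB J (List.mem_append.2 (Or.inr hJ))
      · intro U hU
        rw [List.map_append, List.sum_append, List.map_replicate, List.sum_replicate,
          nsmul_eq_mul, ← key U hU]
        push_cast
        rw [Int.toNat_of_nonneg (by omega)]
        ring

end

theorem artin {G : Type} [Group G] (N : Subgroup G) [N.Normal] [N.FiniteIndex]
    (S0 : Set (Subgroup G)) (hN : ∀ H ∈ S0, N ≤ H) (hc : ∀ H ∈ S0, ∀ a : G, cj a H ∈ S0)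
    (hs : ∀ H ∈ S0, ∀ H' : Subgroup G, N ≤ H' → H' ≤ H → H' ∈ S0) (f : Subgroup G → ℤ)
    (hf : ∀ H ∈ S0, ∀ a : G, f (cj a H) = f H) :
    ∃ (m : ℕ) (A B : List (Subgroup G)), 0 < m ∧ (∀ J ∈ A ++ B, J ∈ S0) ∧
      (∀ U ∈ S0, m * f U + (A.map fun J => pc J U).sum = (B.map fun J => pc J U).sum) ∧
      ∀ U : Subgroup G, N ≤ U → U ∉ S0 → ∀ J ∈ A ++ B, pc J U = 0 := by
  obtain ⟨m, A, B, hm, hAB, hU⟩ := artin_main N S0 hN _ f hf (Nat.lt_succ_self _)
  refine ⟨m, A, B, hm, hAB, hU, ?_⟩
  intro U hNU hUS J hJ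
  by_contra hne
  obtain ⟨g, hg⟩ := artin_ne hne
  apply hUS
  have h1 : cj g U ∈ S0 := hs J (hAB J hJ) _ (artin_le_cj N g hNU) hg
  have h2 := hc _ h1 g⁻¹
  rwa [artin_cj_cj, mul_inv_cancel, artin_cj_one] at h2

end Pool.Agent.THF
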