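import Pool.Agent.THF.L.SSc
import Pool.Agent.THF.L.Cx
import Pool.Agent.MD.L.FixT

/-!
# THF/L-Real: the marks at the subgroups which contain a complex conjugation (paper 1 (c))

PLAN.  `H = U ⊔ N2`, `g⁻¹ c g ∈ H`.  Replace `U` by `U' = cj g⁻¹ U = g U g⁻¹` (`cj g⁻¹ (U ⊔ N2) = U' ⊔ N2`, `U' ∈ famT T`): `c ∈ U' ⊔ N2`, and `mark F U' = mark F U` (`mark_cj`).  `fix_T` for `K = ℚ`, the embedding `ℚ → AlgebraicClosure ℚ`, `x = d`, `s` with `s² = d`: `Cyc U'` or `U'` fixes `s`; in the second case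
`U' ⊔ N2` fixes `s` (`N2 ≤ N0` fixes `s`: `hs0`), but `c s = - s ≠ s` (`cx_neg`).  So `U' = zpowers u`, `c = u^k n`, `n ∈ N2` (`Subgroup.mem_sup'`, `N2` normal).  `u c u⁻¹ c⁻¹ = u^k (u n u⁻¹) n⁻¹ u^(-k) ∈ N2 ≤ N1`, so `hcent`: `u ∈ N0` or `u c⁻¹ ∈ N0`.  If `u ∈ N0` then `c ∈ N0` fixes `s`: contradiction.
So `u = n0 c` with `n0 ∈ N0`, and `N0` fixes all embeddings of `F` (`hF`): `mark F (zpowers u) = mark F (zpowers c)` (`fx_zpowers`: `u • φ = n0 • (c • φ) = c • φ`), `= nrRealPlaces F` (`mark_cx`).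
-/

namespace Pool.Agent.THF

open NumberField IsDedekindDomain Pool.Agent.HWR Pool.Agent.QD Pool.Agent.LD Pool.Agent.H73.AL
  Pool.Agent.H73.DU

private theorem real_fx (F : Type) [Field F] [NumberField F] {u c : GQ}
    (h : ∀ φ : F →+* AlgebraicClosure ℚ, u • φ = c • φ) :
    mark F (Subgroup.zpowers u) = mark F (Subgroup.zpowers c) := by
  have h1 : fx (F →+* AlgebraicClosure ℚ) (Subgroup.zpowers u) =
      fx (F →+* AlgebraicClosure ℚ) (Subgroup.zpowers c) := by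
    ext φ
    rw [fx_zpowers, fx_zpowers, h]
  unfold mark pch
  rw [h1]

theorem mark_real {i : AlgebraicClosure ℚ →+* ℂ} {c : GQ} (h : IsCx i c) {T : Finset ℕ}
    (F : Type) [Field F] [NumberField F] {d : ℚˣ} (hd : (d : ℚ) < 0)
    (hdT : ∀ v : HeightOneSpectrum (𝓞 ℚ), ¬ Away ℚ T v → LSq v d) {s : AlgebraicClosure ℚ}
    (hs : s ^ 2 = algebraMap ℚ (AlgebraicClosure ℚ) (d : ℚ)) {N0 N1 N2 : Subgroup GQ}
    (hn0 : N0.Normal) (hn1 : N1.Normal) (hn2 : N2.Normal) (h10 : N1 ≤ N0) (h21 : N2 ≤ N1)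
    (hF : ∀ φ : F →+* AlgebraicClosure ℚ, N0 ≤ stb φ) (hs0 : ∀ g ∈ N0, g s = s)
    (hcent : ∀ g : GQ, g * c * g⁻¹ * c⁻¹ ∈ N1 → g ∈ N0 ∨ g * c⁻¹ ∈ N0) {U : Subgroup GQ}
    (hU : U ∈ famT T) {g : GQ} (hg : g⁻¹ * c * g ∈ U ⊔ N2) :
    mark F U = (InfinitePlace.nrRealPlaces F : ℤ) := by
  -- `c` does not fix `s`
  have hcs : c s ≠ s := by
    obtain ⟨h1, h2⟩ := cx_neg h hd hs
    rw [h1]
    intro h3
    apply h2
    have h4 : (2 : AlgebraicClosure ℚ) * s = 0 := by linear_combination -h3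
    rcases mul_eq_zero.1 h4 with h5 | h5
    · exact absurd h5 two_ne_zero
    · exact h5
  -- `c = u' n'`
  obtain ⟨u', n', hu', hn', hc⟩ : ∃ u' n' : GQ, u' ∈ cj g⁻¹ U ∧ n' ∈ N2 ∧ u' * n' = c := by
    obtain ⟨u, hu, n, hn, hun⟩ := Subgroup.mem_sup_of_normal_right.1 hg
    refine ⟨g * u * g⁻¹, g * n * g⁻¹, mem_cj_iff.2 ⟨u, hu, by rw [inv_inv]⟩,
      hn2.conj_mem n hn g, ?_⟩
    have h1 : c = g * (g⁻¹ * c * g) * g⁻¹ := by group
    rw [h1, ← hun]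
    group
  have hfam : cj g⁻¹ U ∈ famT T := (nice_rat T).conj U hU g⁻¹
  have hn0' : n' ∈ N0 := h10 (h21 hn')
  rw [← mark_cj F g⁻¹ U]
  have hφ : cj g⁻¹ U ≤ stb (algebraMap ℚ (AlgebraicClosure ℚ)) := by
    intro x _
    exact Subsingleton.elim (α := ℚ →+* AlgebraicClosure ℚ) _ _
  rcases Pool.Agent.MD.fix_T T (algebraMap ℚ (AlgebraicClosure ℚ)) d s hs hdT _ hfam hφ with
    ⟨u, hu⟩ | hfix
  · rw [hu] at hu' ⊢
    obtain ⟨k, hk⟩ := Subgroup.mem_zpowers_iff.1 hu'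
    have hcom : u * c * u⁻¹ * c⁻¹ ∈ N1 := by
      apply h21
      have h1 : u * c * u⁻¹ * c⁻¹ = u ^ k * ((u * n' * u⁻¹) * n'⁻¹) * (u ^ k)⁻¹ := by
        rw [← hc, ← hk]
        have h2 : u * (u ^ k * n') = u ^ k * (u * n') := by
          rw [← mul_assoc, ← mul_assoc, ← zpow_one_add, ← zpow_add_one, add_comm]
        rw [h2]
        group
      rw [h1]
      exact hn2.conj_mem _ (N2.mul_mem (hn2.conj_mem _ hn' u) (N2.inv_mem hn')) _
    rcases hcent u hcom with h1 | h1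
    · exfalso
      apply hcs
      apply hs0
      rw [← hc, ← hk]
      exact N0.mul_mem (N0.zpow_mem h1 k) hn0'
    · rw [← mark_cx h F]
      apply real_fx
      intro φ
      have h2 : (u * c⁻¹) • (c • φ) = c • φ := hF (c • φ) h1
      rw [smul_smul, mul_assoc, inv_mul_cancel, mul_one] at h2
      exact h2
  · exfalso
    apply hcs
    have h1 : c s = u' (n' s) := by
      rw [← hc]
      rfl
    rw [h1, hs0 n' hn0', hfix u' hu']

end Pool.Agent.THF
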