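import Pool.Agent.THF.L.Cx

/-!
# THF/L-Cent: the centralizer of complex conjugation (paper 1 (a))

`J0 = N0 ⊔ zpowers c` is open, its fixed field has a primitive element `θ`. For every conjugate `θ'` of `θ` which is fixed by `c` and
different from `θ` there is an `s` (a square root of `± (θ - q)`, `q` a rational number between the real numbers `θ`, `θ'`) such that
`c s = s` and `g s` is not real if `g θ = θ'` (`Cent_sep`). `N1` is an open normal subgroup contained in `N0` and in the stabilizers of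
`θ` and of these `s`. If `g c = n c g` with `n` in `N1` and `c x = x` for one of these elements `x`, then `g x = n (c g x) = c (g x)`.
So `g θ` is fixed by `c`, and `g θ = θ`, so `g` is in `J0`.
-/

namespace Pool.Agent.THF

open NumberField IsDedekindDomain Pool.Agent.HWR Pool.Agent.LD Pool.Agent.H73.AL
  Pool.Agent.H73.DU

private theorem Cent_alg (inst : Algebra ℚ (AlgebraicClosure ℚ)) :
    IsAlgClosure ℚ (AlgebraicClosure ℚ) := by
  have h : inst = AlgebraicClosure.instAlgebra ℚ := Subsingleton.elim _ _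
  subst h
  infer_instance

private theorem Cent_gal : IsGalois ℚ (AlgebraicClosure ℚ) := by
  have : IsAlgClosure ℚ (AlgebraicClosure ℚ) := Cent_alg inferInstance
  have : Normal ℚ (AlgebraicClosure ℚ) := IsAlgClosure.normal ℚ _
  exact {}

private theorem Cent_pos {z : ℂ} {r : ℝ} (h : z ^ 2 = (r : ℂ)) (hr : 0 < r) : z.im = 0 := by
  have h1 := congrArg Complex.re h
  have h2 := congrArg Complex.im h
  rw [sq] at h1 h2
  simp only [Complex.mul_re, Complex.mul_im, Complex.ofReal_re, Complex.ofReal_im] at h1 h2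
  by_contra h3
  have h4 : z.re = 0 := by
    have : z.re * z.im = 0 := by linarith
    exact (mul_eq_zero.1 this).resolve_right h3
  rw [h4] at h1
  nlinarith [mul_self_nonneg z.im]

private theorem Cent_neg {z : ℂ} {r : ℝ} (h : z ^ 2 = (r : ℂ)) (hr : r < 0) : z.im ≠ 0 := by
  intro h3
  have h1 := congrArg Complex.re h
  rw [sq] at h1
  simp only [Complex.mul_re, Complex.ofReal_re] at h1
  rw [h3] at h1
  nlinarith [mul_self_nonneg z.re]

private theorem Cent_rat {a b : ℝ} (h : a ≠ b) : ∃ ε q : ℚ, 0 < (ε : ℝ) * (a - q) ∧ (ε : ℝ) * (b - q) < 0 := by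
  rcases lt_or_gt_of_ne h with h | h
  · obtain ⟨q, h1, h2⟩ := exists_rat_btwn h
    refine ⟨-1, q, ?_, ?_⟩
    · push_cast
      linarith
    · push_cast
      linarith
  · obtain ⟨q, h1, h2⟩ := exists_rat_btwn h
    refine ⟨1, q, ?_, ?_⟩
    · push_cast
      linarith
    · push_cast
      linarith

private theorem Cent_sep {i : AlgebraicClosure ℚ →+* ℂ} {c : GQ} (h : IsCx i c) {t t' : AlgebraicClosure ℚ}
    (ht : c t = t) (ht' : c t' = t') (hne : t' ≠ t) :
    ∃ s : AlgebraicClosure ℚ, c s = s ∧ ∀ g : GQ, g t = t' → c (g s) ≠ g s := by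
  have h1 : (i t).im = 0 := (cx_real h t).1 ht
  have h2 : (i t').im = 0 := (cx_real h t').1 ht'
  have h3 : (i t).re ≠ (i t').re := fun h4 => hne (i.injective (Complex.ext h4.symm (h2.trans h1.symm)))
  obtain ⟨ε, q, h4, h5⟩ := Cent_rat h3
  obtain ⟨s, hs⟩ := IsAlgClosed.exists_pow_nat_eq ((ε : AlgebraicClosure ℚ) * (t - (q : AlgebraicClosure ℚ))) two_pos
  have h6 : ∀ x : AlgebraicClosure ℚ, (i x).im = 0 → i ((ε : AlgebraicClosure ℚ) * (x - (q : AlgebraicClosure ℚ))) =
      (((ε : ℝ) * ((i x).re - q) : ℝ) : ℂ) := fun x hx => by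
    have h7 : i x = ((i x).re : ℂ) := Complex.ext rfl (by rw [hx, Complex.ofReal_im])
    rw [map_mul, map_sub, map_ratCast, map_ratCast]
    push_cast
    rw [← h7]
  refine ⟨s, (cx_real h s).2 (Cent_pos (r := (ε : ℝ) * ((i t).re - q)) ?_ h4), fun g hg hgs => ?_⟩
  · rw [← map_pow, hs, h6 t h1]
  · refine Cent_neg (z := i (g s)) (r := (ε : ℝ) * ((i t').re - q)) ?_ h5 ((cx_real h (g s)).1 hgs)
    rw [← map_pow, ← map_pow, hs, map_mul, map_sub, map_ratCast, map_ratCast, hg, h6 t' h2]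

private theorem Cent_open (x : AlgebraicClosure ℚ) : IsOpen {g : GQ | g x = x} := by
  have := Cent_gal
  have hx : IsIntegral ℚ x := (Algebra.IsAlgebraic.isAlgebraic x).isIntegral
  have : FiniteDimensional ℚ (IntermediateField.adjoin ℚ {x}) := IntermediateField.adjoin.finiteDimensional hx
  have h1 : IsOpen (MulAction.stabilizer GQ x : Set GQ) := by
    refine Subgroup.isOpen_mono ?_ (IntermediateField.fixingSubgroup_isOpen (IntermediateField.adjoin ℚ {x}))
    intro g hg
    rw [MulAction.mem_stabilizer_iff]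
    exact (IntermediateField.mem_fixingSubgroup_iff _ g).1 hg x (IntermediateField.mem_adjoin_simple_self ℚ x)
  exact h1

/-- an open subgroup is the stabilizer of an element -/
private theorem Cent_prim (J : Subgroup GQ) (hJ : IsOpen (J : Set GQ)) :
    ∃ t : AlgebraicClosure ℚ, (∀ g ∈ J, g t = t) ∧ ∀ g : GQ, g t = t → g ∈ J := by
  have := Cent_gal
  let F : IntermediateField ℚ (AlgebraicClosure ℚ) := IntermediateField.fixedField J
  have hfd : FiniteDimensional ℚ F := by
    obtain ⟨E, hE, hEN⟩ := (krullTopology_mem_nhds_one_iff ℚ (AlgebraicClosure ℚ) (J : Set _)).1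
      (hJ.mem_nhds J.one_mem)
    have h1 : F ≤ E := by
      rw [← InfiniteGalois.fixedField_fixingSubgroup E]
      exact IntermediateField.fixedField_antitone hEN
    have := hE
    exact Submodule.finiteDimensional_of_le (S₁ := Subalgebra.toSubmodule F.toSubalgebra)
      (S₂ := Subalgebra.toSubmodule E.toSubalgebra) h1
  have h2 : F.fixingSubgroup = J := by
    have := InfiniteGalois.fixingSubgroup_fixedField
      (⟨J, J.isClosed_of_isOpen hJ⟩ : ClosedSubgroup GQ)
    exact this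
  let pb := Field.powerBasisOfFiniteOfSeparable ℚ F
  refine ⟨(pb.gen : AlgebraicClosure ℚ), fun g hg => ?_, fun g hg => ?_⟩
  · rw [← h2] at hg
    exact (IntermediateField.mem_fixingSubgroup_iff _ g).1 hg _ pb.gen.2
  · rw [← h2, IntermediateField.mem_fixingSubgroup_iff]
    intro x hx
    have h3 : (g : AlgebraicClosure ℚ →ₐ[ℚ] AlgebraicClosure ℚ).comp F.val = F.val := pb.algHom_ext hg
    exact AlgHom.congr_fun h3 ⟨x, hx⟩

theorem cent {i : AlgebraicClosure ℚ →+* ℂ} {c : GQ} (h : IsCx i c) (N0 : Subgroup GQ)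
    (h0 : IsOpen (N0 : Set GQ)) (hn : N0.Normal) : ∃ N1 : Subgroup GQ,
      IsOpen (N1 : Set GQ) ∧ N1.Normal ∧ N1 ≤ N0 ∧
      ∀ g : GQ, g * c * g⁻¹ * c⁻¹ ∈ N1 → g ∈ N0 ∨ g * c⁻¹ ∈ N0 := by
  classical
  have := Cent_gal
  obtain ⟨t, ht, ht'⟩ := Cent_prim (N0 ⊔ Subgroup.zpowers c) (Subgroup.isOpen_mono le_sup_left h0)
  have hct : c t = t := ht c ((le_sup_right : _ ≤ N0 ⊔ Subgroup.zpowers c) (Subgroup.mem_zpowers c))
  have hsep : ∀ t' : AlgebraicClosure ℚ, ∃ s : AlgebraicClosure ℚ, c s = s ∧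
      (c t' = t' → t' ≠ t → ∀ g : GQ, g t = t' → c (g s) ≠ g s) := fun t' => by
    by_cases h1 : c t' = t' ∧ t' ≠ t
    · obtain ⟨s, hs, hs'⟩ := Cent_sep h hct h1.1 h1.2
      exact ⟨s, hs, fun _ _ => hs'⟩
    · exact ⟨0, map_zero _, fun h2 h3 => absurd ⟨h2, h3⟩ h1⟩
  choose s hs hs' using hsep
  let R : Set (AlgebraicClosure ℚ) := (minpoly ℚ t).rootSet (AlgebraicClosure ℚ)
  have hR : R.Finite := Polynomial.rootSet_finite _ _
  let S : Set (AlgebraicClosure ℚ) := insert t (s '' R)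
  have hS : S.Finite := (hR.image s).insert t
  have hSc : ∀ x ∈ S, c x = x := by
    rintro x (rfl | ⟨y, -, rfl⟩)
    · exact hct
    · exact hs y
  let U : Set GQ := (N0 : Set GQ) ∩ ⋂ x ∈ S, {g : GQ | g x = x}
  have hU : IsOpen U := h0.inter (hS.isOpen_biInter fun x _ => Cent_open x)
  have hU1 : (1 : GQ) ∈ U := ⟨N0.one_mem, Set.mem_iInter₂.2 fun x _ => rfl⟩
  obtain ⟨N, hN⟩ := ProfiniteGrp.exist_openNormalSubgroup_sub_open_nhds_of_one hU hU1
  have hNn : (N.toSubgroup).Normal := N.isNormal'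
  refine ⟨N.toSubgroup, N.isOpen', hNn, fun g hg => (hN hg).1, fun g hg => ?_⟩
  have hfix : ∀ n ∈ N.toSubgroup, ∀ x ∈ S, ∀ a : GQ, n (a x) = a x := fun n hn' x hx a => by
    have h1 : a⁻¹ * n * a⁻¹⁻¹ ∈ N.toSubgroup := hNn.conj_mem n hn' a⁻¹
    have h2 : (a⁻¹ * n * a⁻¹⁻¹) x = x := Set.mem_iInter₂.1 (hN h1).2 x hx
    rw [inv_inv] at h2
    have h3 : a ((a⁻¹ * n * a) x) = a x := congrArg a h2
    have h4 : a * (a⁻¹ * n * a) = n * a := by group
    have h5 : a ((a⁻¹ * n * a) x) = (a * (a⁻¹ * n * a)) x := rfl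
    rw [h5, h4] at h3
    exact h3
  have hgx : ∀ x ∈ S, c (g x) = g x := fun x hx => by
    have h1 := hfix _ hg x hx (c * g)
    have h2 : (g * c * g⁻¹ * c⁻¹) * (c * g) = g * c := by group
    have h3 : (g * c * g⁻¹ * c⁻¹) ((c * g) x) = ((g * c * g⁻¹ * c⁻¹) * (c * g)) x := rfl
    rw [h3, h2] at h1
    have h4 : (g * c) x = g (c x) := rfl
    rw [h4, hSc x hx] at h1
    exact h1.symm
  have hgt : g t = t := by
    by_contra hne
    have h1 : c (g t) = g t := hgx t (Set.mem_insert _ _)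
    have h2 : g t ∈ R := by
      have hx : IsIntegral ℚ t := (Algebra.IsAlgebraic.isAlgebraic t).isIntegral
      refine Polynomial.mem_rootSet.2 ⟨minpoly.ne_zero hx, ?_⟩
      have h3 := Polynomial.aeval_algHom_apply (g : AlgebraicClosure ℚ →ₐ[ℚ] AlgebraicClosure ℚ) t (minpoly ℚ t)
      rw [minpoly.aeval, map_zero] at h3
      exact h3
    exact hs' (g t) h1 hne g rfl (hgx _ (Set.mem_insert_of_mem _ ⟨g t, h2, rfl⟩))
  have hgJ := ht' g hgt
  obtain ⟨n, hn', y, hy, hny⟩ := Subgroup.mem_sup_of_normal_left.1 hgJ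
  obtain ⟨k, rfl⟩ := Subgroup.mem_zpowers_iff.1 hy
  have hcc : c * c = 1 := cx_sq h
  rcases Int.even_or_odd k with ⟨m, rfl⟩ | ⟨m, rfl⟩
  · left
    rw [← two_mul, zpow_mul, zpow_two, hcc, one_zpow, mul_one] at hny
    rw [← hny]
    exact hn'
  · right
    rw [zpow_add, zpow_mul, zpow_two, hcc, one_zpow, one_mul, zpow_one] at hny
    rw [← hny, mul_inv_cancel_right]
    exact hn'

end Pool.Agent.THF
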