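import Pool.Agent.THF.L.Artin
import Pool.Agent.THF.L.Cent
import Pool.Agent.THF.L.AB
import Pool.Agent.THF.L.Real
import Pool.Agent.THF.L.Sq

/-!
# THF/L-Grp: the group theoretic form of ALG (paper section 1)

PLAN.  `exists_cx`: `i, c`; `exists_d`: `d`, `s` with `s² = d`.  `N0` = normal core of `⨅ φ, stb φ ⊓ stabilizer of s` (finitely many embeddings `φ` of `F`; `stab_open`; open, `(nice_rat T).core`).  `cent`: `N1`.  `L` = maximum of `φ e` for `e ≤ 4 * N1.index` (`Finset.sup (range (4 * N1.index + 1)) φ`; `N1` has finite index: `(nice_rat T).finiteIndex`).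
`exists_ab` for `L`: `a, b`, roots `sa, sb`.  `N2 = N1 ⊓ {g | g sa = sa} ⊓ {g | g sb = sb}`: the two stabilizers are normal subgroups of index `≤ 2` (kernels of `g ↦ g sa / sa = ± 1`: `g sa = sa` or `-sa`), open; so `N2` is open, normal, `N2.index ≤ 4 * N1.index`.
`artin` for `G = GQ`, `N = N2`, `S0 = SS0 T N2 c` (`SS0_conj`, `SS0_sub`; `N2 ≤ U ⊔ N2`), `f = mark F - r • 1` (`mark_cj`): `m, A, B`.
Claim (iii): let `U ∈ famT T`, `H = U ⊔ N2`.  `pc J U = pc J H` (`pc_sup`), `mark F U = mark F H` (`mark_sup`).  If `H ∈ SS0` the identity is the one of `artin`.  Otherwise some conjugate of `c` is in `H`, `mark F U = r` by `mark_real`, and all `pc J H = 0` (last part of `artin`).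
Claim (ii) for `J ∈ A ++ B`, `J = U ⊔ N2 ∈ SS0`: open (contains `N2`), no conjugates of `c`; a root: `root_fix`; index: `J.index ≤ N2.index ≤ 4 * N1.index` (`Subgroup.index_dvd_of_le`, `Nat.le_of_dvd`), so `φ J.index ≤ L`, and the primes `p ≤ φ J.index`, `p ∉ T` are as in `exists_ab`: `x = a`, `b` or `a * b` according to the root.
-/

namespace Pool.Agent.THF

open NumberField IsDedekindDomain Pool.Agent.HWR Pool.Agent.QD Pool.Agent.LD Pool.Agent.H73.AL
  Pool.Agent.H73.DU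

/-- the subgroups of thin fields -/
def ThinG (φ : ℕ → ℕ) (T : Finset ℕ) (c : GQ) (J : Subgroup GQ) : Prop :=
  IsOpen (J : Set GQ) ∧ (∀ g : GQ, g⁻¹ * c * g ∉ J) ∧ ∃ (x : ℚˣ) (s : AlgebraicClosure ℚ),
    s ^ 2 = algebraMap ℚ (AlgebraicClosure ℚ) (x : ℚ) ∧ (∀ g ∈ J, g s = s) ∧
    ∀ (p : ℕ), p.Prime → p ∉ T → p ≤ φ J.index → ∀ v : HeightOneSpectrum (𝓞 ℚ),
      ((p : ℕ) : 𝓞 ℚ) ∈ v.asIdeal → ¬ LSq v x

private theorem grp_cl (inst : Algebra ℚ (AlgebraicClosure ℚ)) :
    IsAlgClosure ℚ (AlgebraicClosure ℚ) := by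
  have h : inst = AlgebraicClosure.instAlgebra ℚ := Subsingleton.elim _ _
  subst h
  infer_instance

/-- the stabilizer of an element -/
private noncomputable def grp_st (s : AlgebraicClosure ℚ) : Subgroup GQ :=
  MulAction.stabilizer GQ s

private theorem grp_mem {s : AlgebraicClosure ℚ} {g : GQ} : g ∈ grp_st s ↔ g s = s := by
  unfold grp_st
  rw [MulAction.mem_stabilizer_iff, AlgEquiv.smul_def]

private theorem grp_open (s : AlgebraicClosure ℚ) : IsOpen (grp_st s : Set GQ) := by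
  have hcl : IsAlgClosure ℚ (AlgebraicClosure ℚ) := grp_cl inferInstance
  have hi : IsIntegral ℚ s := (hcl.isAlgebraic.isAlgebraic s).isIntegral
  have : FiniteDimensional ℚ (IntermediateField.adjoin ℚ {s}) :=
    IntermediateField.adjoin.finiteDimensional hi
  refine Subgroup.isOpen_mono ?_
    (IntermediateField.fixingSubgroup_isOpen (IntermediateField.adjoin ℚ {s}))
  intro g hg
  rw [grp_mem]
  exact (IntermediateField.mem_fixingSubgroup_iff _ g).1 hg _
    (IntermediateField.mem_adjoin_simple_self ℚ s)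

private theorem grp_pm {s : AlgebraicClosure ℚ} {x : ℚ}
    (hs : s ^ 2 = algebraMap ℚ (AlgebraicClosure ℚ) x) (g : GQ) : g s = s ∨ g s = -s := by
  have h : (g s) ^ 2 = s ^ 2 := by
    rw [← map_pow, hs]
    exact g.commutes x
  exact sq_eq_sq_iff_eq_or_eq_neg.1 h

private theorem grp_index {s : AlgebraicClosure ℚ} {x : ℚ}
    (hs : s ^ 2 = algebraMap ℚ (AlgebraicClosure ℚ) x) : (grp_st s).index ≤ 2 := by
  unfold grp_st
  rw [MulAction.index_stabilizer]
  have hsub : MulAction.orbit GQ s ⊆ ({s, -s} : Set (AlgebraicClosure ℚ)) := by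
    rintro _ ⟨g, rfl⟩
    change g • s ∈ ({s, -s} : Set (AlgebraicClosure ℚ))
    rw [AlgEquiv.smul_def]
    rcases grp_pm hs g with h | h
    · rw [h]
      exact Set.mem_insert _ _
    · rw [h]
      exact Set.mem_insert_of_mem _ rfl
  refine (Set.ncard_le_ncard hsub (Set.toFinite _)).trans ?_
  refine (Set.ncard_insert_le _ _).trans ?_
  rw [Set.ncard_singleton]

private theorem grp_normal {s : AlgebraicClosure ℚ} {x : ℚ}
    (hs : s ^ 2 = algebraMap ℚ (AlgebraicClosure ℚ) x) : (grp_st s).Normal := by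
  refine ⟨fun n hn g => ?_⟩
  have hn' : n s = s := grp_mem.1 hn
  rw [grp_mem, AlgEquiv.mul_apply, AlgEquiv.mul_apply]
  have hgg : g (g⁻¹ s) = s := by
    rw [← AlgEquiv.mul_apply, mul_inv_cancel]
    rfl
  rcases grp_pm hs g⁻¹ with h | h
  · rw [h, hn']
    rw [h] at hgg
    exact hgg
  · rw [h, map_neg, hn']
    rw [h] at hgg
    exact hgg

private theorem grp_sqrt (x : ℚ) :
    ∃ s : AlgebraicClosure ℚ, s ^ 2 = algebraMap ℚ (AlgebraicClosure ℚ) x :=
  IsAlgClosed.exists_pow_nat_eq _ (by norm_num)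

theorem grp (φ : ℕ → ℕ) {T : Finset ℕ} (hTp : ∀ p ∈ T, p.Prime) (h2 : 2 ∈ T) (F : Type)
    [Field F] [NumberField F] : ∃ (i : AlgebraicClosure ℚ →+* ℂ) (c : GQ), IsCx i c ∧
      ∃ (m : ℕ) (A B : List (Subgroup GQ)), 0 < m ∧ (∀ J ∈ A ++ B, ThinG φ T c J) ∧
        ∀ U ∈ famT T, (m : ℤ) * (mark F U - InfinitePlace.nrRealPlaces F) +
          (A.map fun J => pc J U).sum = (B.map fun J => pc J U).sum := by
  obtain ⟨i, c, hic⟩ := exists_cx
  obtain ⟨d, hd0, hdT⟩ := exists_d hTp h2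
  obtain ⟨s, hs⟩ := grp_sqrt (d : ℚ)
  have hnice := nice_rat T
  -- the group `N0`
  let H0 : Subgroup GQ := (⨅ ψ : F →+* AlgebraicClosure ℚ, stb ψ) ⊓ grp_st s
  have hH0 : IsOpen (H0 : Set GQ) := by
    have h1 : (H0 : Set GQ) = (⋂ ψ : F →+* AlgebraicClosure ℚ, (stb ψ : Set GQ)) ∩
        (grp_st s : Set GQ) := by
      simp only [H0, Subgroup.coe_inf, Subgroup.coe_iInf]
    rw [h1]
    refine IsOpen.inter (isOpen_iInter_of_finite fun ψ => ?_) (grp_open s)
    exact stab_open F ψ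
  let N0 : Subgroup GQ := H0.normalCore
  have hN0 : IsOpen (N0 : Set GQ) := hnice.core hH0
  have hn0 : N0.Normal := H0.normalCore_normal
  have hN0F : ∀ ψ : F →+* AlgebraicClosure ℚ, N0 ≤ stb ψ := fun ψ =>
    (H0.normalCore_le.trans inf_le_left).trans (iInf_le _ ψ)
  have hN0s : ∀ g ∈ N0, g s = s := fun g hg =>
    grp_mem.1 ((H0.normalCore_le.trans inf_le_right) hg)
  obtain ⟨N1, hN1, hn1, h10, hcent⟩ := cent hic N0 hN0 hn0
  have hfi1 : N1.FiniteIndex := hnice.finiteIndex hN1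
  -- the bound
  let L : ℕ := (Finset.range (4 * N1.index + 1)).sup φ
  obtain ⟨a, b, habT, habL⟩ := exists_ab hTp h2 L
  obtain ⟨sa, hsa⟩ := grp_sqrt (a : ℚ)
  obtain ⟨sb, hsb⟩ := grp_sqrt (b : ℚ)
  -- the group `N2`
  let N2 : Subgroup GQ := N1 ⊓ (grp_st sa ⊓ grp_st sb)
  have hna := grp_normal hsa
  have hnb := grp_normal hsb
  have hn2 : N2.Normal := inferInstance
  have hN2 : IsOpen (N2 : Set GQ) := by
    have h1 : (N2 : Set GQ) = (N1 : Set GQ) ∩ ((grp_st sa : Set GQ) ∩ (grp_st sb : Set GQ)) := by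
      simp only [N2, Subgroup.coe_inf]
    rw [h1]
    exact hN1.inter ((grp_open sa).inter (grp_open sb))
  have hfi2 : N2.FiniteIndex := hnice.finiteIndex hN2
  have h21 : N2 ≤ N1 := inf_le_left
  have h20 : N2 ≤ N0 := h21.trans h10
  have hN2ab : ∀ g ∈ N2, g sa = sa ∧ g sb = sb := fun g hg =>
    ⟨grp_mem.1 hg.2.1, grp_mem.1 hg.2.2⟩
  have hN2i : N2.index ≤ 4 * N1.index := by
    have e1 : N2.index ≤ N1.index * (grp_st sa ⊓ grp_st sb).index := Subgroup.index_inf_le
    have e2 : (grp_st sa ⊓ grp_st sb).index ≤ (grp_st sa).index * (grp_st sb).index :=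
      Subgroup.index_inf_le
    have e3 : (grp_st sa).index * (grp_st sb).index ≤ 2 * 2 :=
      Nat.mul_le_mul (grp_index hsa) (grp_index hsb)
    calc N2.index ≤ N1.index * (grp_st sa ⊓ grp_st sb).index := e1
      _ ≤ N1.index * (2 * 2) := Nat.mul_le_mul_left _ (e2.trans e3)
      _ = 4 * N1.index := by ring
  obtain ⟨m, A, B, hm, hAB, hid, hzero⟩ := artin N2 (SS0 T N2 c)
    (by
      rintro H ⟨⟨U, -, rfl⟩, -⟩
      exact le_sup_right)
    (fun H hH g => SS0_conj hn2 hH g)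
    (fun H hH H' h1 h2 => SS0_sub hn2 hH h1 h2)
    (fun U => mark F U - (InfinitePlace.nrRealPlaces F : ℤ))
    (fun H _ g => by
      change mark F (cj g H) - _ = _
      rw [mark_cj])
  have hN2J : ∀ J ∈ A ++ B, N2 ≤ J := by
    intro J hJ
    obtain ⟨⟨U, -, rfl⟩, -⟩ := hAB J hJ
    exact le_sup_right
  refine ⟨i, c, hic, m, A, B, hm, ?_, ?_⟩
  · intro J hJ
    have hNJ := hN2J J hJ
    obtain ⟨⟨U, hU, hJU⟩, hJc⟩ := hAB J hJ
    refine ⟨Subgroup.isOpen_mono hNJ hN2, hJc, ?_⟩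
    have hJi : J.index ≤ 4 * N1.index := by
      refine le_trans ?_ hN2i
      refine Nat.le_of_dvd ?_ (Subgroup.index_dvd_of_le hNJ)
      exact Nat.pos_of_ne_zero hfi2.index_ne_zero
    have hJL : φ J.index ≤ L :=
      Finset.le_sup (f := φ) (Finset.mem_range.2 (Nat.lt_succ_of_le hJi))
    have hroot := root_fix (T := T) (a := a) (b := b) (fun v hv => (habT v hv).1) hsa hsb hn2
      hN2ab hU
    rw [← hJU] at hroot
    rcases hroot with h | h | h
    · refine ⟨a, sa, hsa, h, ?_⟩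
      intro p hp hpT hpJ v hv
      exact (habL v p hp (hpJ.trans hJL) hpT hv).1
    · refine ⟨b, sb, hsb, h, ?_⟩
      intro p hp hpT hpJ v hv
      exact (habL v p hp (hpJ.trans hJL) hpT hv).2.1
    · refine ⟨a * b, sa * sb, ?_, h, ?_⟩
      · rw [mul_pow, hsa, hsb, Units.val_mul, map_mul]
      · intro p hp hpT hpJ v hv
        exact (habL v p hp (hpJ.trans hJL) hpT hv).2.2
  · intro U hU
    have hpcA : (A.map fun J => pc J U).sum = (A.map fun J => pc J (U ⊔ N2)).sum := by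
      congr 1
      refine List.map_congr_left fun J hJ => ?_
      exact (pc_sup N2 J U (hN2J J (List.mem_append_left _ hJ))).symm
    have hpcB : (B.map fun J => pc J U).sum = (B.map fun J => pc J (U ⊔ N2)).sum := by
      congr 1
      refine List.map_congr_left fun J hJ => ?_
      exact (pc_sup N2 J U (hN2J J (List.mem_append_right _ hJ))).symm
    have hmark : mark F (U ⊔ N2) = mark F U := mark_sup F N2 U fun ψ => h20.trans (hN0F ψ)
    rw [hpcA, hpcB]
    by_cases hH : U ⊔ N2 ∈ SS0 T N2 c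
    · have h := hid _ hH
      rw [← hmark]
      exact h
    · have hz := hzero (U ⊔ N2) le_sup_right hH
      have hA0 : (A.map fun J => pc J (U ⊔ N2)).sum = 0 := by
        apply List.sum_eq_zero
        intro x hx
        obtain ⟨J, hJ, rfl⟩ := List.mem_map.1 hx
        exact hz J (List.mem_append_left _ hJ)
      have hB0 : (B.map fun J => pc J (U ⊔ N2)).sum = 0 := by
        apply List.sum_eq_zero
        intro x hx
        obtain ⟨J, hJ, rfl⟩ := List.mem_map.1 hx
        exact hz J (List.mem_append_right _ hJ)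
      have hg : ∃ g : GQ, g⁻¹ * c * g ∈ U ⊔ N2 := by
        by_contra hno
        push Not at hno
        exact hH ⟨⟨U, hU, rfl⟩, hno⟩
      obtain ⟨g, hg⟩ := hg
      have hr := mark_real hic F hd0 hdT hs hn0 hn1 hn2 h10 h21 hN0F hN0s hcent hU hg
      rw [hA0, hB0, hr, sub_self, mul_zero, zero_add]

end Pool.Agent.THF
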