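import Pool.Agent.THF.L.Defs

/-!
# THF/L-SSc: properties of the family of subgroups

`pc_sup`, `mark_sup`: a normal subgroup which acts trivially may be added to a subgroup without changing the fixed points.
`famT_sub`: a subgroup of a cyclic group is cyclic.  `SS0_sub`: Dedekind's law for `N ≤ H' ≤ U ⊔ N`.
-/

namespace Pool.Agent.THF

open NumberField IsDedekindDomain Pool.Agent.HWR Pool.Agent.LD Pool.Agent.H73.AL
  Pool.Agent.H73.DU

private theorem ssc_fx_sup {G : Type} [Group G] (X : Type) [MulAction G X] (N U : Subgroup G)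
    (h : ∀ n ∈ N, ∀ x : X, n • x = x) : fx X (U ⊔ N) = fx X U := by
  ext x
  constructor
  · intro h1 u hu
    exact h1 u (Subgroup.mem_sup_left hu)
  · intro h1 u hu
    have h2 : U ⊔ N ≤ MulAction.stabilizer G x := sup_le (fun u hu => h1 u hu) (fun n hn => h n hn x)
    exact h2 hu

private theorem ssc_pch_sup {G : Type} [Group G] (X : Type) [MulAction G X] (N U : Subgroup G)
    (h : ∀ n ∈ N, ∀ x : X, n • x = x) : pch G X (U ⊔ N) = pch G X U := by
  unfold pch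
  rw [ssc_fx_sup X N U h]

private theorem ssc_pch_cj {G : Type} [Group G] (X : Type) [MulAction G X] (a : G) (U : Subgroup G) :
    pch G X (cj a U) = pch G X U := by
  unfold pch
  congr 1
  refine Nat.card_congr ((MulAction.toPerm a).subtypeEquiv fun x => ?_)
  change (∀ u ∈ cj a U, u • x = x) ↔ (∀ u ∈ U, u • a • x = a • x)
  constructor
  · intro h u hu
    have h1 := h _ (mem_cj (a := a) hu)
    rw [mul_smul, mul_smul] at h1
    exact (eq_inv_smul_iff.1 h1.symm).symm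
  · intro h g hg
    obtain ⟨u, hu, rfl⟩ := mem_cj_iff.1 hg
    rw [mul_smul, mul_smul, h u hu, inv_smul_smul]

theorem pc_sup {G : Type} [Group G] (N J U : Subgroup G) [N.Normal] (h : N ≤ J) :
    pc J (U ⊔ N) = pc J U := by
  refine ssc_pch_sup (G ⧸ J) N U fun n hn x => ?_
  induction x using QuotientGroup.induction_on with
  | H a =>
    change ((n * a : G) : G ⧸ J) = a
    rw [QuotientGroup.eq]
    have h1 := (inferInstance : N.Normal).conj_mem n⁻¹ (N.inv_mem hn) a⁻¹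
    have h2 : (n * a)⁻¹ * a = a⁻¹ * n⁻¹ * a⁻¹⁻¹ := by group
    rw [h2]
    exact h h1

theorem mark_sup (F : Type) [Field F] [NumberField F] (N U : Subgroup GQ) [N.Normal]
    (h : ∀ (φ : F →+* AlgebraicClosure ℚ), N ≤ stb φ) : mark F (U ⊔ N) = mark F U :=
  ssc_pch_sup (F →+* AlgebraicClosure ℚ) N U fun _ hn φ => h φ hn

theorem mark_cj (F : Type) [Field F] [NumberField F] (a : GQ) (U : Subgroup GQ) :
    mark F (cj a U) = mark F U :=
  ssc_pch_cj (F →+* AlgebraicClosure ℚ) a U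

private theorem ssc_cyc {G : Type} [Group G] {U V : Subgroup G} (hU : Cyc U) (h : V ≤ U) : Cyc V := by
  obtain ⟨g, rfl⟩ := hU
  have h1 : IsCyclic V := isCyclic_of_injective (Subgroup.inclusion h) (Subgroup.inclusion_injective h)
  obtain ⟨g', hg'⟩ := (Subgroup.isCyclic_iff_exists_zpowers_eq_top V).1 h1
  exact ⟨g', hg'.symm⟩

theorem famT_sub {T : Finset ℕ} {U V : Subgroup GQ} (hU : U ∈ famT T) (h : V ≤ U) :
    V ∈ famT T := by
  rcases hU with hU | ⟨l, hl, a, hlT, hU⟩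
  · exact Or.inl (ssc_cyc hU h)
  · exact Or.inr ⟨l, hl, a, hlT, (Subgroup.map_mono h).trans hU⟩

private theorem ssc_cj_normal {G : Type} [Group G] {N : Subgroup G} (hN : N.Normal) (a : G) :
    cj a N = N := by
  ext g
  rw [mem_cj_iff]
  constructor
  · rintro ⟨u, hu, rfl⟩
    have h1 := hN.conj_mem u hu a⁻¹
    rwa [inv_inv] at h1
  · intro hg
    exact ⟨a * g * a⁻¹, hN.conj_mem g hg a, by group⟩

private theorem ssc_cj_sup {G : Type} [Group G] {N : Subgroup G} (hN : N.Normal) (a : G)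
    (U : Subgroup G) : cj a (U ⊔ N) = cj a U ⊔ N := by
  have h1 : cj a (U ⊔ N) = cj a U ⊔ cj a N := Subgroup.map_sup U N _
  rw [h1, ssc_cj_normal hN]

theorem SS0_conj {T : Finset ℕ} {N : Subgroup GQ} (hN : N.Normal) {c : GQ} {H : Subgroup GQ}
    (hH : H ∈ SS0 T N c) (a : GQ) : cj a H ∈ SS0 T N c := by
  obtain ⟨⟨U, hU, rfl⟩, h⟩ := hH
  refine ⟨⟨cj a U, (nice_rat T).conj U hU a, ssc_cj_sup hN a U⟩, fun g hg => ?_⟩
  obtain ⟨u, hu, h1⟩ := mem_cj_iff.1 hg
  refine h (g * a⁻¹) ?_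
  have h2 : (g * a⁻¹)⁻¹ * c * (g * a⁻¹) = a * (g⁻¹ * c * g) * a⁻¹ := by group
  have h3 : a * (a⁻¹ * u * a) * a⁻¹ = u := by group
  rw [h2, ← h1, h3]
  exact hu

theorem SS0_sub {T : Finset ℕ} {N : Subgroup GQ} (hN : N.Normal) {c : GQ} {H H' : Subgroup GQ}
    (hH : H ∈ SS0 T N c) (h1 : N ≤ H') (h2 : H' ≤ H) : H' ∈ SS0 T N c := by
  obtain ⟨⟨U, hU, rfl⟩, h⟩ := hH
  refine ⟨⟨H' ⊓ U, famT_sub hU inf_le_right, le_antisymm (fun x hx => ?_)
    (sup_le inf_le_left h1)⟩, fun g hg => h g (h2 hg)⟩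
  have h3 : x ∈ ((U ⊔ N : Subgroup GQ) : Set GQ) := h2 hx
  rw [Subgroup.mul_normal U N] at h3
  obtain ⟨u, hu, n, hn, rfl⟩ := Set.mem_mul.1 h3
  have h4 : u ∈ H' := by
    have h5 := H'.mul_mem hx (H'.inv_mem (h1 hn))
    rwa [mul_inv_cancel_right] at h5
  exact Subgroup.mul_mem_sup ⟨h4, hu⟩ hn

end Pool.Agent.THF
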